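import Pool.Agent.Q105.BrG.Dyn

/-!
# The group is a branch group with elements of infinite order
-/

namespace Pool.Agent.Q105.BrG

open TAut

section ins
variable {X : Type*} [DecidableEq X]

/-- put an automorphism below the letter `x` -/
def io (x : X) (k : TAut X) : TAut X := ⟨fun u => match u with
  | [] => 1
  | y :: w => if y = x then k.p w else 1⟩

theorem io_p_nil (x : X) (k : TAut X) : (io x k).p [] = 1 := rfl

theorem sec_io (x y : X) (k : TAut X) : sec [y] (io x k) = if y = x then k else 1 := by
  ext1
  funext w
  have : (sec [y] (io x k)).p w = if y = x then k.p w else 1 := rfl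
  rw [this]
  split_ifs <;> rfl

theorem act_io (x y : X) (k : TAut X) : act (io x k) [y] = [y] := rfl

theorem io_mul (x : X) (k k' : TAut X) : io x (k * k') = io x k * io x k' := by
  apply ext_sec
  · rw [mul_p, io_p_nil, io_p_nil]; rfl
  · intro y
    rw [sec_mul, act_io, sec_io, sec_io, sec_io]
    split_ifs <;> simp

/-- as a homomorphism -/
def ioH (x : X) : TAut X →* TAut X := MonoidHom.mk' (io x) (io_mul x)

/-- put an automorphism below a word -/
def ins : List X → TAut X →* TAut X
  | [] => MonoidHom.id _
  | x :: v => (ioH x).comp (ins v)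

theorem ins_cons (x : X) (v : List X) (k : TAut X) : ins (x :: v) k = io x (ins v k) := rfl

theorem act_io_cons (x y : X) (k : TAut X) (u : List X) :
    act (io x k) (y :: u) = y :: (if y = x then act k u else u) := by
  rw [act_cons, io_p_nil, sec_io]
  split_ifs <;> simp

theorem act_ins_out (v : List X) (k : TAut X) (u : List X) (hu : ¬ v <+: u) :
    act (ins v k) u = u := by
  induction v generalizing u with
  | nil => exact absurd (List.nil_prefix) hu
  | cons x v ih =>
    cases u with
    | nil => rfl
    | cons y u =>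
      rw [ins_cons, act_io_cons]
      split_ifs with h
      · subst h
        rw [ih u]
        intro hp
        apply hu
        exact (List.cons_prefix_cons).2 ⟨rfl, hp⟩
      · rfl

theorem stab_ins (v : List X) (k : TAut X) : Stab v.length (ins v k) := by
  intro u hu
  by_cases h : v <+: u
  · have := h.eq_of_length_le hu
    subst this
    clear h hu
    induction v with
    | nil => rfl
    | cons x v ih => rw [ins_cons, act_io_cons, if_pos rfl, ih]
  · exact act_ins_out v k u h

theorem sec_ins (v w : List X) (k : TAut X) (h : w.length = v.length) :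
    sec w (ins v k) = if w = v then k else 1 := by
  induction v generalizing w with
  | nil =>
    have : w = [] := List.length_eq_zero_iff.1 h
    subst this
    simp [ins]
  | cons x v ih =>
    cases w with
    | nil => simp at h
    | cons y w =>
      rw [ins_cons, sec_cons, sec_io]
      by_cases hy : y = x
      · subst hy
        rw [if_pos rfl, ih w (by simpa using h)]
        simp
      · rw [if_neg hy, sec_one, if_neg]
        intro hc
        exact hy (List.cons.inj hc).1

/-- conjugation moves the insertion -/
theorem conj_io (h k : TAut X) (x y : X) (hx : h.p [] x = y) :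
    h * io x k * h⁻¹ = io y (sec [x] h * k * (sec [x] h)⁻¹) := by
  rw [mul_inv_eq_iff_eq_mul]
  apply ext_sec
  · show h.p [] * 1 = 1 * h.p []
    rw [mul_one, one_mul]
  · intro z
    have e1 : act h [z] = [h.p [] z] := rfl
    rw [sec_mul, sec_mul, act_io, sec_io, e1, sec_io]
    by_cases hz : z = x
    · subst hz
      rw [if_pos rfl, if_pos hx]
      group
    · rw [if_neg hz, if_neg, mul_one, one_mul]
      intro hc
      apply hz
      exact (h.p []).injective (hc.trans hx.symm)

end ins

section
variable (M : ℕ) [NeZero M]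

theorem Ad_eq : A M .d = io 0 (A M .c) := by
  apply ext_sec
  · rfl
  · intro x
    rw [sec_io, sec_A]
    by_cases h : x = 0
    · subst h; simp [sc]
    · simp only [sc, if_neg h]
      exact A_e M

/-- the rotation -/
def rho : TAut (ZMod (2 * M)) := A M .a * A M .b

theorem rho_mem : rho M ∈ G M := (G M).mul_mem (A_mem M _) (A_mem M _)

omit [NeZero M] in
theorem rho_p (x : ZMod (2 * M)) : (rho M).p [] x = x + 1 := by
  show (1 : ZMod (2 * M)) - (-x) = x + 1
  ring

theorem sec_rho (x : ZMod (2 * M)) : sec [x] (rho M) = A M (sc M .b x) := by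
  unfold rho
  rw [sec_mul, sec_A]
  show A M .e * _ = _
  rw [A_e, one_mul]

omit [NeZero M] in
theorem act_rho_pow (k : ℕ) (x : ZMod (2 * M)) : act (rho M ^ k) [x] = [x + k] := by
  induction k with
  | zero => simp
  | succ k ih =>
    rw [pow_succ', act_mul, ih, act_cons, rho_p]
    simp [add_assoc]

theorem sc_b_cast {k : ℕ} (hk : k < 2 * M) :
    sc M .b (k : ZMod (2 * M)) = if k = 0 then .b else if k = M then .a else .e := by
  have h0 : ((k : ZMod (2 * M)) = 0) ↔ k = 0 := by
    rw [ZMod.natCast_eq_zero_iff]
    constructor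
    · intro h
      exact Nat.eq_zero_of_dvd_of_lt h hk
    · rintro rfl; exact dvd_zero _
  have hM : ((k : ZMod (2 * M)) = (M : ZMod (2 * M))) ↔ k = M := by
    have hM' : M < 2 * M := by
      have := NeZero.ne M
      omega
    rw [ZMod.natCast_eq_natCast_iff', Nat.mod_eq_of_lt hk, Nat.mod_eq_of_lt hM']
  by_cases h1 : k = 0
  · simp only [sc, if_pos h1, if_pos (h0.2 h1)]
  · by_cases h2 : k = M
    · simp only [sc, if_neg h1, if_neg (fun h => h1 (h0.1 h)), if_pos h2, if_pos (hM.2 h2)]
    · simp only [sc, if_neg h1, if_neg (fun h => h1 (h0.1 h)), if_neg h2,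
        if_neg (fun h => h2 (hM.1 h))]

theorem sec_rho_pow (k : ℕ) (hk : k ≤ 2 * M) :
    sec [0] (rho M ^ k) = if k = 0 then 1 else if k ≤ M then A M .b else rho M := by
  have hM0 := NeZero.ne M
  induction k with
  | zero => simp
  | succ k ih =>
    rw [pow_succ', sec_mul, act_rho_pow, zero_add, sec_rho, ih (by omega), sc_b_cast M (by omega)]
    rw [if_neg (Nat.succ_ne_zero k)]
    by_cases h0 : k = 0
    · subst h0
      have : 0 + 1 ≤ M := by omega
      simp [this]
    · rw [if_neg h0, if_neg h0]
      by_cases h1 : k = M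
      · rw [if_pos h1, if_pos h1.le, if_neg (by omega)]
        rfl
      · rw [if_neg h1, A_e, one_mul]
        by_cases h2 : k ≤ M
        · rw [if_pos h2, if_pos (by omega)]
        · rw [if_neg h2, if_neg (by omega)]

theorem rho_inf (n : ℕ) (hn : 0 < n) : rho M ^ n ≠ 1 := by
  have hM0 := NeZero.ne M
  induction n using Nat.strong_induction_on with
  | _ n ih =>
    intro h1
    have h2 := act_rho_pow M n 0
    rw [h1, act_one] at h2
    have h3 : ((n : ℕ) : ZMod (2 * M)) = 0 := by
      have := (List.cons.inj h2).1
      rw [zero_add] at this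
      exact this.symm
    rw [ZMod.natCast_eq_zero_iff] at h3
    obtain ⟨m, rfl⟩ := h3
    have hm : 0 < m := Nat.pos_of_mul_pos_left hn |> fun _ => by
      rcases Nat.eq_zero_or_pos m with h | h
      · subst h; simp at hn
      · exact h
    have hlt : m < 2 * M * m := by nlinarith [Nat.pos_of_ne_zero hM0]
    apply ih m hlt hm
    -- the section of `(rho^(2M))^m` at `0` is `rho^m`
    have key : ∀ j : ℕ, act ((rho M ^ (2 * M)) ^ j) [0] = [0] ∧
        sec [0] ((rho M ^ (2 * M)) ^ j) = rho M ^ j := by
      intro j
      induction j with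
      | zero => simp
      | succ j ihj =>
        have e1 : act (rho M ^ (2 * M)) [0] = [0] := by
          rw [act_rho_pow, ZMod.natCast_self, add_zero]
        have e2 : sec [0] (rho M ^ (2 * M)) = rho M := by
          rw [sec_rho_pow M _ le_rfl, if_neg (by omega), if_neg (by omega)]
        constructor
        · rw [pow_succ', act_mul, ihj.1, e1]
        · rw [pow_succ', sec_mul, ihj.1, ihj.2, e2, pow_succ']
    have := (key m).2
    rw [← pow_mul, h1, sec_one] at this
    exact this.symm

/-- the group is self-replicating -/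
theorem replic {k : TAut (ZMod (2 * M))} (hk : k ∈ G M) :
    ∃ g ∈ G M, act g [0] = [0] ∧ sec [0] g = k := by
  have hM0 := NeZero.ne M
  have hgen : ∀ s : Gn, ∃ g ∈ G M, act g [0] = [0] ∧ sec [0] g = A M s := by
    intro s
    cases s
    · exact ⟨1, (G M).one_mem, by simp, by rw [sec_one, A_e]⟩
    · -- conjugate of `b` by a rotation
      set z := rho M ^ M with hz
      have hzm : z ∈ G M := (G M).pow_mem (rho_mem M) _
      have a1 : act z [0] = [(M : ZMod (2 * M))] := by rw [hz, act_rho_pow, zero_add]
      have a2 : sec [0] z = A M .b := by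
        rw [hz, sec_rho_pow M M (by omega), if_neg hM0, if_pos le_rfl]
      have a3 : act (A M .b) [(M : ZMod (2 * M))] = [(M : ZMod (2 * M))] := by
        show [-(M : ZMod (2 * M))] = _
        rw [negM]
      have a4 : sec [(M : ZMod (2 * M))] (A M .b) = A M .a := by
        rw [sec_A]
        simp only [sc, if_neg (M_ne_zero M), if_true]
      have hw : A M .b ∈ G M := A_mem M _
      -- first an element with section `b a b`
      set g₁ := z⁻¹ * A M .b * z with hg₁
      have g1m : g₁ ∈ G M := (G M).mul_mem ((G M).mul_mem ((G M).inv_mem hzm) hw) hzm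
      have b1 : act g₁ [0] = [0] := by
        rw [hg₁, act_mul, act_mul, a1, a3, ← a1, act_inv_act]
      have b2 : sec [0] g₁ = A M .b * A M .a * A M .b := by
        rw [hg₁, sec_mul, sec_mul, a1, a3, a4, sec_inv, ← a1, act_inv_act, a2, A_inv]
      have b3 : act (A M .b) [0] = [0] := by
        show [-(0 : ZMod (2 * M))] = _
        rw [neg_zero]
      have b4 : sec [0] (A M .b) = A M .b := by
        rw [sec_A]
        simp [sc]
      refine ⟨A M .b * g₁ * A M .b, (G M).mul_mem ((G M).mul_mem hw g1m) hw, ?_, ?_⟩
      · rw [act_mul, act_mul, b3, b1, b3]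
      · rw [sec_mul, sec_mul, b3, b1, b4, b2]
        have := A_sq M .b
        calc A M .b * (A M .b * A M .a * A M .b) * A M .b
            = (A M .b * A M .b) * A M .a * (A M .b * A M .b) := by group
          _ = A M .a := by rw [this]; group
    · refine ⟨A M .b, A_mem M _, ?_, ?_⟩
      · show [-(0 : ZMod (2 * M))] = _
        rw [neg_zero]
      · rw [sec_A]; simp [sc]
    · refine ⟨A M .d, A_mem M _, rfl, ?_⟩
      rw [sec_A]; simp [sc]
    · refine ⟨A M .c, A_mem M _, ?_, ?_⟩
      · show [-(0 : ZMod (2 * M))] = _
        rw [neg_zero]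
      · rw [sec_A]; simp [sc]
  obtain ⟨l, rfl⟩ := hk
  induction l with
  | nil => exact ⟨1, (G M).one_mem, by simp, rfl⟩
  | cons s l ih =>
    obtain ⟨g, hg, h1, h2⟩ := ih
    obtain ⟨g', hg', h3, h4⟩ := hgen s
    refine ⟨g' * g, (G M).mul_mem hg' hg, ?_, ?_⟩
    · rw [act_mul, h1, h3]
    · rw [sec_mul, h1, h2, h4, ev_cons]

/-- transitivity on the first level -/
theorem trans1 (x y : ZMod (2 * M)) : ∃ g ∈ G M, act g [x] = [y] := by
  refine ⟨rho M ^ (y - x).val, (G M).pow_mem (rho_mem M) _, ?_⟩
  rw [act_rho_pow, ZMod.natCast_val, ZMod.cast_id]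
  simp

/-- transitivity on the levels -/
theorem level_trans (u v : List (ZMod (2 * M))) (h : u.length = v.length) :
    ∃ g ∈ G M, act g u = v := by
  induction u generalizing v with
  | nil =>
    have : v = [] := List.length_eq_zero_iff.1 h.symm
    subst this
    exact ⟨1, (G M).one_mem, rfl⟩
  | cons x u ih =>
    cases v with
    | nil => simp at h
    | cons y v =>
      obtain ⟨g₁, h₁, e₁⟩ := trans1 M x 0
      obtain ⟨g₂, h₂, e₂⟩ := trans1 M y 0
      obtain ⟨k, hk, e₃⟩ := ih v (by simpa using h)
      -- want `g` with `g (x u) = y v`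
      have m1 := sec_mem M h₁ [x]
      have m2 := sec_mem M h₂ [y]
      obtain ⟨g, hg, e4, e5⟩ := replic M
        ((G M).mul_mem ((G M).mul_mem m2 hk) ((G M).inv_mem m1))
      refine ⟨g₂⁻¹ * g * g₁, (G M).mul_mem ((G M).mul_mem ((G M).inv_mem h₂) hg) h₁, ?_⟩
      have c1 : act g₁ (x :: u) = 0 :: act (sec [x] g₁) u := by
        have := act_append g₁ [x] u
        rw [e₁] at this
        exact this
      have c2 : act g₂ (y :: v) = 0 :: act (sec [y] g₂) v := by
        have := act_append g₂ [y] v
        rw [e₂] at this
        exact this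
      have c3 : ∀ w, act g (0 :: w) = 0 :: act (sec [y] g₂ * k * (sec [x] g₁)⁻¹) w := by
        intro w
        have := act_append g [0] w
        rw [e4, e5] at this
        exact this
      rw [act_mul, act_mul, c1, c3, act_mul, act_mul, act_inv_act, e₃, ← c2, act_inv_act]

end

end Pool.Agent.Q105.BrG
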