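import Pool.Agent.Q105.BrG.Norm

/-!
# The abelianisation and the root action
-/

namespace Pool.Agent.Q105.BrG

open TAut

section
variable (M : ℕ)

/-- reduction mod 2 -/
def red : ZMod (2 * M) →+* ZMod 2 := ZMod.castHom (Dvd.intro _ rfl) (ZMod 2)

/-- parity of the root action -/
def al (g : TAut (ZMod (2 * M))) : ZMod 2 := red M (g.p [] 0)

variable [NeZero M]

theorem neg2 (x : ZMod 2) : -x = x := ZMod.neg_eq_self_mod_two x

omit [NeZero M] in
theorem red_top (s : Gn) (x : ZMod (2 * M)) :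
    red M (top M s x) = red M x + red M (top M s 0) := by
  cases s
  · simp [top]
  · simp only [top, Equiv.subLeft_apply, map_sub, map_one, map_zero, sub_zero]
    rw [sub_eq_add_neg, neg2]; ring
  · simp only [top, Equiv.neg_apply, map_neg, neg2, map_zero, add_zero]
  · simp only [top, Equiv.neg_apply, map_neg, neg2, map_zero, add_zero]
  · simp [top]

theorem red_G {g : TAut (ZMod (2 * M))} (hg : g ∈ G M) (x : ZMod (2 * M)) :
    red M (g.p [] x) = red M x + al M g := by
  obtain ⟨l, rfl⟩ := hg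
  induction l generalizing x with
  | nil => simp [al]
  | cons s l ih =>
    have h : ∀ z, (ev M (s :: l)).p [] z = top M s ((ev M l).p [] z) := by
      intro z; rw [ev_cons, mul_p]; rfl
    unfold al
    rw [h, h, red_top, red_top M s ((ev M l).p [] 0), ih x, ih 0]
    simp only [map_zero, zero_add]
    ring

theorem al_mul {g h : TAut (ZMod (2 * M))} (hg : g ∈ G M) :
    al M (g * h) = al M g + al M h := by
  have : (g * h).p [] 0 = g.p [] (h.p [] 0) := rfl
  unfold al
  rw [this, red_G M hg]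
  show red M (h.p [] 0) + al M g = _
  unfold al
  ring

/-- first hidden parity -/
def b1 (g : TAut (ZMod (2 * M))) : ZMod 2 := ∑ x, al M (sec [x] g)
/-- second hidden parity -/
def b2 (g : TAut (ZMod (2 * M))) : ZMod 2 := ∑ x, b1 M (sec [x] g)

theorem b1_mul {g h : TAut (ZMod (2 * M))} (hg : g ∈ G M) :
    b1 M (g * h) = b1 M g + b1 M h := by
  unfold b1
  have : ∀ x, al M (sec [x] (g * h)) = al M (sec [h.p [] x] g) + al M (sec [x] h) := by
    intro x
    rw [sec_mul]
    exact al_mul M (sec_mem M hg _)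
  simp_rw [this]
  rw [Finset.sum_add_distrib]
  congr 1
  exact Equiv.sum_comp (h.p []) (fun x => al M (sec [x] g))

theorem b2_mul {g h : TAut (ZMod (2 * M))} (hg : g ∈ G M) :
    b2 M (g * h) = b2 M g + b2 M h := by
  unfold b2
  have : ∀ x, b1 M (sec [x] (g * h)) = b1 M (sec [h.p [] x] g) + b1 M (sec [x] h) := by
    intro x
    rw [sec_mul]
    exact b1_mul M (sec_mem M hg _)
  simp_rw [this]
  rw [Finset.sum_add_distrib]
  congr 1
  exact Equiv.sum_comp (h.p []) (fun x => b1 M (sec [x] g))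

/-- the full invariant -/
def chi (g : TAut (ZMod (2 * M))) : ZMod 2 × ZMod 2 × ZMod 2 := (al M g, b1 M g, b2 M g)

theorem chi_mul {g h : TAut (ZMod (2 * M))} (hg : g ∈ G M) :
    chi M (g * h) = chi M g + chi M h := by
  unfold chi
  rw [al_mul M hg, b1_mul M hg, b2_mul M hg]
  rfl

/-- values on letters -/
def cv : Gn → ZMod 2 × ZMod 2 × ZMod 2
  | .e => (0, 0, 0)
  | .a => (1, 0, 0)
  | .b => (0, 1, 1)
  | .c => (0, 1, 0)
  | .d => (0, 0, 1)

omit [NeZero M] in
theorem al_A (s : Gn) : al M (A M s) = (cv s).1 := by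
  show red M (top M s 0) = _
  cases s <;> simp [top, cv]

theorem b1_A (s : Gn) : b1 M (A M s) = (cv s).2.1 := by
  have hMz := M_ne_zero M
  unfold b1
  simp_rw [sec_A, al_A]
  cases s
  · simp [sc, cv]
  · simp [sc, cv]
  · have : ∀ x : ZMod (2 * M), (cv (sc M .b x)).1 = if x = (M : ZMod (2 * M)) then 1 else 0 := by
      intro x
      by_cases h0 : x = 0
      · subst h0; simp [sc, cv, hMz.symm]
      · by_cases hM : x = (M : ZMod (2 * M))
        · simp only [sc, if_neg h0, if_pos hM, cv]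
        · simp only [sc, if_neg h0, if_neg hM, cv]
    simp_rw [this]
    simp [cv]
  · have : ∀ x : ZMod (2 * M), (cv (sc M .c x)).1 = if x = (M : ZMod (2 * M)) then 1 else 0 := by
      intro x
      by_cases h0 : x = 0
      · subst h0; simp [sc, cv, hMz.symm]
      · by_cases hM : x = (M : ZMod (2 * M))
        · simp only [sc, if_neg h0, if_pos hM, cv]
        · simp only [sc, if_neg h0, if_neg hM, cv]
    simp_rw [this]
    simp [cv]
  · have : ∀ x : ZMod (2 * M), (cv (sc M .d x)).1 = 0 := by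
      intro x
      by_cases h0 : x = 0
      · subst h0; simp [sc, cv]
      · simp only [sc, if_neg h0, cv]
    simp_rw [this]
    simp [cv]

theorem b2_A (s : Gn) : b2 M (A M s) = (cv s).2.2 := by
  have hMz := M_ne_zero M
  unfold b2
  simp_rw [sec_A, b1_A]
  cases s
  · simp [sc, cv]
  · simp [sc, cv]
  · have : ∀ x : ZMod (2 * M), (cv (sc M .b x)).2.1 = if x = 0 then 1 else 0 := by
      intro x
      by_cases h0 : x = 0
      · subst h0; simp [sc, cv]
      · by_cases hM : x = (M : ZMod (2 * M))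
        · simp only [sc, if_neg h0, if_pos hM, cv]
        · simp only [sc, if_neg h0, if_neg hM, cv]
    simp_rw [this]
    simp [cv]
  · have : ∀ x : ZMod (2 * M), (cv (sc M .c x)).2.1 = 0 := by
      intro x
      by_cases h0 : x = 0
      · subst h0; simp [sc, cv]
      · by_cases hM : x = (M : ZMod (2 * M))
        · simp only [sc, if_neg h0, if_pos hM, cv]
        · simp only [sc, if_neg h0, if_neg hM, cv]
    simp_rw [this]
    simp [cv]
  · have : ∀ x : ZMod (2 * M), (cv (sc M .d x)).2.1 = if x = 0 then 1 else 0 := by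
      intro x
      by_cases h0 : x = 0
      · subst h0; simp [sc, cv]
      · simp only [sc, if_neg h0, cv]
    simp_rw [this]
    simp [cv]

theorem chi_A (s : Gn) : chi M (A M s) = cv s := by
  unfold chi
  rw [al_A, b1_A, b2_A]

theorem chi_one : chi M 1 = 0 := by
  rw [← A_e, chi_A]; rfl

theorem chi_ev (l : List Gn) : chi M (ev M l) = (l.map cv).sum := by
  induction l with
  | nil => exact chi_one M
  | cons s l ih =>
    rw [ev_cons, chi_mul M (A_mem M s), chi_A, ih]; rfl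

theorem chi_inv {g : TAut (ZMod (2 * M))} (hg : g ∈ G M) : chi M g⁻¹ = chi M g := by
  have h := chi_mul M (h := g) ((G M).inv_mem hg)
  rw [inv_mul_cancel, chi_one] at h
  have h2 : ∀ z w : ZMod 2 × ZMod 2 × ZMod 2, 0 = z + w → z = w := by decide
  exact h2 _ _ h

/-- commutator -/
def cm {H : Type*} [Group H] (g h : H) : H := g * h * g⁻¹ * h⁻¹

theorem cm_mem {H : Type*} [Group H] {K : Subgroup H} {g h : H} (hg : g ∈ K) (hh : h ∈ K) :
    cm g h ∈ K :=
  K.mul_mem (K.mul_mem (K.mul_mem hg hh) (K.inv_mem hg)) (K.inv_mem hh)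

theorem chi_comm {g h : TAut (ZMod (2 * M))} (hg : g ∈ G M) (hh : h ∈ G M) :
    chi M (cm g h) = 0 := by
  have h1 := (G M).inv_mem hg
  rw [cm, chi_mul M ((G M).mul_mem ((G M).mul_mem hg hh) h1),
    chi_mul M ((G M).mul_mem hg hh), chi_mul M hg, chi_inv M hg, chi_inv M hh]
  have h2 : ∀ z w : ZMod 2 × ZMod 2 × ZMod 2, z + w + z + w = 0 := by decide
  exact h2 _ _

/-- the nontrivial letters -/
def filt (l : List Gn) : List Gn := l.filter (fun s => decide (s ≠ .e))

omit [NeZero M] in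
theorem ev_filt (l : List Gn) : ev M (filt l) = ev M l := by
  induction l with
  | nil => rfl
  | cons s l ih =>
    by_cases hs : s = .e
    · subst hs
      rw [ev_cons, A_e, one_mul, ← ih]; rfl
    · have : filt (s :: l) = s :: filt l := by
        simp [filt, List.filter_cons, hs]
      rw [this, ev_cons, ev_cons, ih]

/-- the short words with trivial invariant -/
def short : List (List Gn) :=
  [[], [.a, .a], [.b, .b], [.c, .c], [.d, .d],
   [.b, .c, .d], [.b, .d, .c], [.c, .b, .d], [.c, .d, .b], [.d, .b, .c], [.d, .c, .b]]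

theorem short3 : ∀ x y z : Gn, (([x, y, z] : List Gn).map cv).sum = 0 → filt [x, y, z] ∈ short := by
  decide

theorem short_ev (l : List Gn) (hl : l ∈ short) : ev M l = 1 := by
  have h1 := A_sq M
  simp only [short, List.mem_cons, List.not_mem_nil, or_false] at hl
  rcases hl with rfl | rfl | rfl | rfl | rfl | rfl | rfl | rfl | rfl | rfl | rfl
  · rfl
  · simp [ev_cons, h1]
  · simp [ev_cons, h1]
  · simp [ev_cons, h1]
  · simp [ev_cons, h1]
  · simp only [ev_cons, ev_nil, mul_one]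
    rw [A_kl M (s := .c) (t := .d) trivial trivial]; exact h1 .b
  · simp only [ev_cons, ev_nil, mul_one]
    rw [A_kl M (s := .d) (t := .c) trivial trivial]; exact h1 .b
  · simp only [ev_cons, ev_nil, mul_one]
    rw [A_kl M (s := .b) (t := .d) trivial trivial]; exact h1 .c
  · simp only [ev_cons, ev_nil, mul_one]
    rw [A_kl M (s := .d) (t := .b) trivial trivial]; exact h1 .c
  · simp only [ev_cons, ev_nil, mul_one]
    rw [A_kl M (s := .b) (t := .c) trivial trivial]; exact h1 .d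
  · simp only [ev_cons, ev_nil, mul_one]
    rw [A_kl M (s := .c) (t := .b) trivial trivial]; exact h1 .d

theorem eq_one_of_short {g : TAut (ZMod (2 * M))} (hg : g ∈ G M) (h : nu M g ≤ 3)
    (hc : chi M g = 0) : g = 1 := by
  obtain ⟨l, hl, rfl⟩ := nu_ex M hg
  have h3 : l.length ≤ 3 := hl ▸ h
  -- pad to length three
  obtain ⟨x, y, z, hxyz⟩ : ∃ x y z : Gn, ev M [x, y, z] = ev M l := by
    match l, h3 with
    | [], _ => exact ⟨.e, .e, .e, by simp [ev_cons, A_e]⟩
    | [x], _ => exact ⟨x, .e, .e, by simp [ev_cons, A_e]⟩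
    | [x, y], _ => exact ⟨x, y, .e, by simp [ev_cons, A_e]⟩
    | [x, y, z], _ => exact ⟨x, y, z, rfl⟩
    | x :: y :: z :: w :: l, h =>
      exfalso
      simp only [List.length_cons] at h
      omega
  rw [← hxyz] at hc ⊢
  rw [chi_ev] at hc
  rw [← ev_filt]
  exact short_ev M _ (short3 x y z hc)

/-- a commutator of elements of `G` is trivial or has length at least four -/
theorem comm_long {g h : TAut (ZMod (2 * M))} (hg : g ∈ G M) (hh : h ∈ G M)
    (hn : nu M (cm g h) ≤ 3) : cm g h = 1 :=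
  eq_one_of_short M (cm_mem hg hh) hn (chi_comm M hg hh)

/-- maps `x ↦ x + c` -/
def Tr {N : ℕ} (σ : Equiv.Perm (ZMod N)) : Prop := ∃ c, ∀ x, σ x = x + c
/-- maps `x ↦ ± x + c` -/
def Aff {N : ℕ} (σ : Equiv.Perm (ZMod N)) : Prop := ∃ c, (∀ x, σ x = x + c) ∨ (∀ x, σ x = -x + c)

theorem inv_tr {N : ℕ} {σ : Equiv.Perm (ZMod N)} {c : ZMod N} (h : ∀ x, σ x = x + c) :
    ∀ x, σ⁻¹ x = x + -c := by
  intro x
  rw [Equiv.Perm.inv_eq_iff_eq, h]; ring

theorem inv_rf {N : ℕ} {σ : Equiv.Perm (ZMod N)} {c : ZMod N} (h : ∀ x, σ x = -x + c) :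
    ∀ x, σ⁻¹ x = -x + c := by
  intro x
  rw [Equiv.Perm.inv_eq_iff_eq, h]; ring

theorem cm_Aff {N : ℕ} {σ τ : Equiv.Perm (ZMod N)} (hσ : Aff σ) (hτ : Aff τ) : Tr (cm σ τ) := by
  obtain ⟨c, hσ⟩ := hσ
  obtain ⟨d, hτ⟩ := hτ
  rcases hσ with hσ | hσ <;> rcases hτ with hτ | hτ
  · refine ⟨0, fun x => ?_⟩
    simp only [cm, Equiv.Perm.mul_apply, inv_tr hτ, inv_tr hσ, hσ, hτ]; ring
  · refine ⟨2 * c, fun x => ?_⟩
    simp only [cm, Equiv.Perm.mul_apply, inv_rf hτ, inv_tr hσ, hσ, hτ]; ring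
  · refine ⟨-2 * d, fun x => ?_⟩
    simp only [cm, Equiv.Perm.mul_apply, inv_tr hτ, inv_rf hσ, hσ, hτ]; ring
  · refine ⟨2 * c - 2 * d, fun x => ?_⟩
    simp only [cm, Equiv.Perm.mul_apply, inv_rf hτ, inv_rf hσ, hσ, hτ]; ring

theorem cm_Tr {N : ℕ} {σ τ : Equiv.Perm (ZMod N)} (hσ : Tr σ) (hτ : Tr τ) : cm σ τ = 1 := by
  obtain ⟨c, hσ⟩ := hσ
  obtain ⟨d, hτ⟩ := hτ
  ext x
  simp only [cm, Equiv.Perm.mul_apply, inv_tr hτ, inv_tr hσ, hσ, hτ, Equiv.Perm.one_apply]
  ring_nf

theorem conj_Tr {N : ℕ} {σ τ : Equiv.Perm (ZMod N)} (hσ : Tr σ) (hτ : Aff τ) :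
    Tr (τ⁻¹ * σ * τ) := by
  obtain ⟨c, hσ⟩ := hσ
  obtain ⟨d, hτ⟩ := hτ
  rcases hτ with hτ | hτ
  · refine ⟨c, fun x => ?_⟩
    simp only [Equiv.Perm.mul_apply, inv_tr hτ, hσ, hτ]; ring
  · refine ⟨-c, fun x => ?_⟩
    simp only [Equiv.Perm.mul_apply, inv_rf hτ, hσ, hτ]; ring

theorem Aff_mul {N : ℕ} {σ τ : Equiv.Perm (ZMod N)} (hσ : Aff σ) (hτ : Aff τ) :
    Aff (σ * τ) := by
  obtain ⟨c, hσ⟩ := hσ
  obtain ⟨d, hτ⟩ := hτ
  rcases hσ with hσ | hσ <;> rcases hτ with hτ | hτ
  · exact ⟨d + c, Or.inl fun x => by simp only [Equiv.Perm.mul_apply, hσ, hτ]; ring⟩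
  · exact ⟨d + c, Or.inr fun x => by simp only [Equiv.Perm.mul_apply, hσ, hτ]; ring⟩
  · exact ⟨-d + c, Or.inr fun x => by simp only [Equiv.Perm.mul_apply, hσ, hτ]; ring⟩
  · exact ⟨-d + c, Or.inl fun x => by simp only [Equiv.Perm.mul_apply, hσ, hτ]; ring⟩

omit [NeZero M] in
theorem Aff_top (s : Gn) : Aff (top M s) := by
  cases s
  · exact ⟨0, Or.inl fun x => by simp [top]⟩
  · exact ⟨1, Or.inr fun x => by simp [top]; ring⟩
  · exact ⟨0, Or.inr fun x => by simp [top]⟩
  · exact ⟨0, Or.inr fun x => by simp [top]⟩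
  · exact ⟨0, Or.inl fun x => by simp [top]⟩

theorem Aff_G {g : TAut (ZMod (2 * M))} (hg : g ∈ G M) : Aff (g.p []) := by
  obtain ⟨l, rfl⟩ := hg
  induction l with
  | nil => exact ⟨0, Or.inl fun x => by simp⟩
  | cons s l ih =>
    have : (ev M (s :: l)).p [] = top M s * (ev M l).p [] := by
      rw [ev_cons, mul_p]; rfl
    rw [this]
    exact Aff_mul (Aff_top M s) ih

end

end Pool.Agent.Q105.BrG
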