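import Pool.Agent.Q105.BrG.Chi

/-!
# The dynamics of `g ↦ [g, h⁻¹ g h]`
-/

namespace Pool.Agent.Q105.BrG

open TAut

/-- the iterated operation -/
def T {H : Type*} [Group H] (h g : H) : H := cm g (h⁻¹ * g * h)

section stab
variable {X : Type*}

theorem stMul {n : ℕ} {g k : TAut X} (hg : Stab n g) (hk : Stab n k) : Stab n (g * k) := by
  intro v hv
  rw [act_mul, hk v hv, hg v hv]

theorem stInv {n : ℕ} {g : TAut X} (hg : Stab n g) : Stab n g⁻¹ := by
  intro v hv
  have := act_inv_act g v
  rwa [hg v hv] at this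

theorem stConj {n : ℕ} {g : TAut X} (hg : Stab n g) (h : TAut X) : Stab n (h⁻¹ * g * h) := by
  intro v hv
  rw [act_mul, act_mul, hg _ (by simpa using hv), act_inv_act]

theorem stCm {n : ℕ} {g k : TAut X} (hg : Stab n g) (hk : Stab n k) : Stab n (cm g k) :=
  stMul (stMul (stMul hg hk) (stInv hg)) (stInv hk)

theorem stT {n : ℕ} {g : TAut X} (hg : Stab n g) (h : TAut X) : Stab n (T h g) :=
  stCm hg (stConj hg h)

theorem stMono {n m : ℕ} {g : TAut X} (hg : Stab n g) (h : m ≤ n) : Stab m g :=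
  fun v hv => hg v (hv.trans h)

theorem sec_cm {n : ℕ} {g k : TAut X} (hg : Stab n g) (hk : Stab n k) {v : List X}
    (hv : v.length ≤ n) : sec v (cm g k) = cm (sec v g) (sec v k) := by
  unfold Pool.Agent.Q105.BrG.cm
  rw [sec_mul, sec_mul, sec_mul, sec_inv, sec_inv, stInv hk v hv, stInv hg v hv, hk v hv]

theorem sec_conj {n : ℕ} {g : TAut X} (hg : Stab n g) (h : TAut X) {v : List X}
    (hv : v.length ≤ n) :
    sec v (h⁻¹ * g * h) = (sec v h)⁻¹ * sec (act h v) g * sec v h := by
  rw [sec_mul, sec_mul, sec_inv, hg _ (by simpa using hv), act_inv_act]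

theorem sec_T {n : ℕ} {g : TAut X} (hg : Stab n g) (h : TAut X) {v : List X}
    (hv : v.length ≤ n) :
    sec v (T h g) = cm (sec v g) ((sec v h)⁻¹ * sec (act h v) g * sec v h) := by
  unfold Pool.Agent.Q105.BrG.T
  rw [sec_cm hg (stConj hg h) hv, sec_conj hg h hv]

theorem p_cm (g k : TAut X) : (cm g k).p [] = cm (g.p []) (k.p []) := rfl
theorem p_conj (g h : TAut X) : (h⁻¹ * g * h).p [] = (h.p [])⁻¹ * g.p [] * h.p [] := rfl

end stab

section
variable (M : ℕ) [NeZero M]

theorem T_mem {g h : TAut (ZMod (2 * M))} (hg : g ∈ G M) (hh : h ∈ G M) : T h g ∈ G M :=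
  cm_mem hg ((G M).mul_mem ((G M).mul_mem ((G M).inv_mem hh) hg) hh)

theorem nu_cm {g h : TAut (ZMod (2 * M))} (hg : g ∈ G M) (hh : h ∈ G M) :
    nu M (cm g h) ≤ 2 * nu M g + 2 * nu M h := by
  have h1 := nu_mul M hg hh
  have h2 := nu_mul M ((G M).mul_mem hg hh) ((G M).inv_mem hg)
  have h3 := nu_mul M ((G M).mul_mem ((G M).mul_mem hg hh) ((G M).inv_mem hg))
    ((G M).inv_mem hh)
  have h4 := nu_inv M hg
  have h5 := nu_inv M hh
  unfold cm
  omega

theorem nu_conj {g h : TAut (ZMod (2 * M))} (hg : g ∈ G M) (hh : h ∈ G M) :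
    nu M (h⁻¹ * g * h) ≤ nu M g + 2 * nu M h := by
  have h1 := nu_mul M ((G M).inv_mem hh) hg
  have h2 := nu_mul M ((G M).mul_mem ((G M).inv_mem hh) hg) hh
  have h5 := nu_inv M hh
  omega

/-- sum of the lengths of the sections along an orbit -/
noncomputable def S (h f : TAut (ZMod (2 * M))) (v : List (ZMod (2 * M))) (l : ℕ) : ℕ :=
  ∑ i ∈ Finset.range l, nu M (sec (act (h ^ i) v) f)

theorem S_T {g h : TAut (ZMod (2 * M))} (hg : g ∈ G M) (hh : h ∈ G M) {n : ℕ}
    (hs : Stab n g) {v : List (ZMod (2 * M))} (hv : v.length ≤ n) {l : ℕ}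
    (hl : act (h ^ l) v = v) :
    S M h (T h g) v l ≤ 4 * S M h g v l + 4 * S M h h v l := by
  have h1 : ∀ i ∈ Finset.range l, nu M (sec (act (h ^ i) v) (T h g)) ≤
      2 * nu M (sec (act (h ^ i) v) g) + 2 * nu M (sec (act (h ^ (i + 1)) v) g)
        + 4 * nu M (sec (act (h ^ i) v) h) := by
    intro i _
    have hv' : (act (h ^ i) v).length ≤ n := by simpa using hv
    rw [sec_T hs h hv']
    have e1 : act h (act (h ^ i) v) = act (h ^ (i + 1)) v := by
      rw [← act_mul, ← pow_succ']
    rw [e1]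
    have a1 := sec_mem M hg (act (h ^ i) v)
    have a2 := sec_mem M hg (act (h ^ (i + 1)) v)
    have a3 := sec_mem M hh (act (h ^ i) v)
    have b1 := nu_cm M a1 ((G M).mul_mem ((G M).mul_mem ((G M).inv_mem a3) a2) a3)
    have b2 := nu_conj M a2 a3
    omega
  have h2 := Finset.sum_le_sum h1
  have h3 : ∑ i ∈ Finset.range l, nu M (sec (act (h ^ (i + 1)) v) g) =
      ∑ i ∈ Finset.range l, nu M (sec (act (h ^ i) v) g) := by
    have e1 := Finset.sum_range_succ (fun i => nu M (sec (act (h ^ i) v) g)) l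
    have e2 := Finset.sum_range_succ' (fun i => nu M (sec (act (h ^ i) v) g)) l
    simp only [hl, pow_zero, act_one] at e1 e2
    omega
  rw [Finset.sum_add_distrib, Finset.sum_add_distrib, ← Finset.mul_sum, ← Finset.mul_sum,
    ← Finset.mul_sum, h3] at h2
  unfold S
  omega

/-- going down one level -/
theorem S_sec {f : TAut (ZMod (2 * M))} (hf : f ∈ G M) (h : TAut (ZMod (2 * M)))
    (v : List (ZMod (2 * M))) (x : ZMod (2 * M)) (l : ℕ) :
    M * S M h f (v ++ [x]) l ≤ S M h f v l + 2 * M * l := by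
  have h1 : ∀ i ∈ Finset.range l, M * nu M (sec (act (h ^ i) (v ++ [x])) f) ≤
      nu M (sec (act (h ^ i) v) f) + 2 * M := by
    intro i _
    rw [act_append, sec_append]
    exact nu_sec M (sec_mem M hf _) _
  have h2 := Finset.sum_le_sum h1
  rw [← Finset.mul_sum, Finset.sum_add_distrib, Finset.sum_const, Finset.card_range,
    smul_eq_mul] at h2
  unfold S
  linarith [mul_comm l (2 * M)]

/-- average bound -/
def Bd (h f : TAut (ZMod (2 * M))) (n K : ℕ) : Prop :=
  ∀ v : List (ZMod (2 * M)), v.length = n → ∀ l, act (h ^ l) v = v → S M h f v l ≤ K * l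

omit [NeZero M] in
theorem split_last {n : ℕ} {v : List (ZMod (2 * M))} (hv : v.length = n + 1) :
    ∃ w x, w.length = n ∧ v = w ++ [x] := by
  have hne : v ≠ [] := by
    rintro rfl
    simp at hv
  refine ⟨v.dropLast, v.getLast hne, by simp [hv], (List.dropLast_append_getLast hne).symm⟩

omit [NeZero M] in
theorem per_last {h : TAut (ZMod (2 * M))} {w : List (ZMod (2 * M))} {x : ZMod (2 * M)} {l : ℕ}
    (hl : act (h ^ l) (w ++ [x]) = w ++ [x]) : act (h ^ l) w = w := by
  rw [act_append] at hl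
  exact (List.append_inj hl (by simp)).1

theorem Bd_h {h : TAut (ZMod (2 * M))} (hh : h ∈ G M) (hM : 4 ≤ M) {n K : ℕ}
    (hb : Bd M h h n K) : Bd M h h (n + 1) (max 3 (K - 1)) := by
  intro v hv l hl
  obtain ⟨w, x, hw, rfl⟩ := split_last M hv
  have h1 := S_sec M hh h w x l
  have h2 := hb w hw l (per_last M hl)
  have h3 : K + 2 * M ≤ M * max 3 (K - 1) := by
    rcases le_or_gt K 3 with hK | hK
    · have : max 3 (K - 1) = 3 := by omega
      rw [this]; omega
    · have : max 3 (K - 1) = K - 1 := by omega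
      rw [this]
      obtain ⟨j, rfl⟩ := Nat.exists_eq_add_of_lt hK
      have : 3 + j + 1 - 1 = 3 + j := by omega
      rw [this]
      nlinarith
  have h4 : M * S M h h (w ++ [x]) l ≤ M * (max 3 (K - 1) * l) := by
    calc M * S M h h (w ++ [x]) l ≤ K * l + 2 * M * l := by omega
      _ = (K + 2 * M) * l := by ring
      _ ≤ (M * max 3 (K - 1)) * l := Nat.mul_le_mul_right l h3
      _ = M * (max 3 (K - 1) * l) := by ring
  exact Nat.le_of_mul_le_mul_left h4 (by omega)

theorem Bd_g {g h : TAut (ZMod (2 * M))} (hg : g ∈ G M) (hh : h ∈ G M) (hM : 508 ≤ M) {n K : ℕ}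
    (hs : Stab n g) (hb0 : Bd M h h n 3) (hb : Bd M h g n K) :
    Bd M h (T h (T h (T h g))) (n + 1) (max 3 (K - 1)) := by
  intro v hv l hl
  obtain ⟨w, x, hw, rfl⟩ := split_last M hv
  have hl' := per_last M hl
  have g1 := T_mem M hg hh
  have g2 := T_mem M g1 hh
  have g3 := T_mem M g2 hh
  have h1 := S_sec M g3 h w x l
  have h2 := hb w hw l hl'
  have h0 := hb0 w hw l hl'
  have s1 := S_T M hg hh hs hw.le hl'
  have s2 := S_T M g1 hh (stT hs h) hw.le hl'
  have s3 := S_T M g2 hh (stT (stT hs h) h) hw.le hl'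
  have h3 : 64 * K + 252 + 2 * M ≤ M * max 3 (K - 1) := by
    rcases le_or_gt K 3 with hK | hK
    · have : max 3 (K - 1) = 3 := by omega
      rw [this]; omega
    · have : max 3 (K - 1) = K - 1 := by omega
      rw [this]
      obtain ⟨j, rfl⟩ := Nat.exists_eq_add_of_lt hK
      have : 3 + j + 1 - 1 = 3 + j := by omega
      rw [this]
      nlinarith
  have h4 : M * S M h (T h (T h (T h g))) (w ++ [x]) l ≤ M * (max 3 (K - 1) * l) := by
    calc M * S M h (T h (T h (T h g))) (w ++ [x]) l
        ≤ 64 * (K * l) + 84 * (3 * l) + 2 * M * l := by omega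
      _ = (64 * K + 252 + 2 * M) * l := by ring
      _ ≤ (M * max 3 (K - 1)) * l := Nat.mul_le_mul_right l h3
      _ = M * (max 3 (K - 1) * l) := by ring
  exact Nat.le_of_mul_le_mul_left h4 (by omega)

/-- two steps go down one level -/
theorem Stab_TT {g h : TAut (ZMod (2 * M))} (hg : g ∈ G M) (hh : h ∈ G M) {n : ℕ}
    (hs : Stab n g) : Stab (n + 1) (T h (T h g)) := by
  have g1 := T_mem M hg hh
  have hs1 := stT hs h
  have hs2 := stT hs1 h
  have tr : ∀ v : List (ZMod (2 * M)), v.length = n → Tr ((sec v (T h g)).p []) := by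
    intro v hv
    rw [sec_T hs h hv.le, p_cm]
    exact cm_Aff (Aff_G M (sec_mem M hg v)) (Aff_G M ((G M).mul_mem ((G M).mul_mem
      ((G M).inv_mem (sec_mem M hh v)) (sec_mem M hg _)) (sec_mem M hh v)))
  have tr2 : ∀ v : List (ZMod (2 * M)), v.length = n → (sec v (T h (T h g))).p [] = 1 := by
    intro v hv
    rw [sec_T hs1 h hv.le, p_cm, p_conj]
    apply cm_Tr (tr v hv)
    exact conj_Tr (tr _ (by simpa using hv)) (Aff_G M (sec_mem M hh v))
  intro v hv
  rcases Nat.lt_or_ge n v.length with hn | hn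
  · have hv1 : v.length = n + 1 := by omega
    obtain ⟨w, x, hw, rfl⟩ := split_last M hv1
    rw [act_append, hs2 w hw.le, act_cons, tr2 w hw]
    rfl
  · exact hs2 v hn

/-- initial bound -/
theorem nu_sec_list {f : TAut (ZMod (2 * M))} (hf : f ∈ G M) (hM : 4 ≤ M)
    (v : List (ZMod (2 * M))) : nu M (sec v f) ≤ max 3 (nu M f) := by
  induction v generalizing f with
  | nil => simp
  | cons x v ih =>
    rw [sec_cons]
    have h1 := ih (sec_mem M hf [x])
    have h2 := nu_sec M hf x
    have h3 : nu M (sec [x] f) ≤ max 3 (nu M f) := by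
      by_contra hc
      push Not at hc
      have h4 : 4 ≤ nu M (sec [x] f) := by omega
      have h5 : nu M f < nu M (sec [x] f) := by omega
      nlinarith
    omega

theorem Bd_init {f h : TAut (ZMod (2 * M))} (hf : f ∈ G M) (hM : 4 ≤ M) (n : ℕ) :
    Bd M h f n (max 3 (nu M f)) := by
  intro v _ l _
  unfold S
  calc ∑ i ∈ Finset.range l, nu M (sec (act (h ^ i) v) f)
      ≤ ∑ _i ∈ Finset.range l, max 3 (nu M f) :=
        Finset.sum_le_sum (fun i _ => nu_sec_list M hf hM _)
    _ = max 3 (nu M f) * l := by rw [Finset.sum_const, Finset.card_range, smul_eq_mul, mul_comm]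

theorem Bd_h_all {h : TAut (ZMod (2 * M))} (hh : h ∈ G M) (hM : 4 ≤ M) (n : ℕ) :
    Bd M h h n (max 3 (nu M h - n)) := by
  induction n with
  | zero => exact Bd_init M hh hM 0
  | succ n ih =>
    have := Bd_h M hh hM ih
    have e : max 3 (max 3 (nu M h - n) - 1) = max 3 (nu M h - (n + 1)) := by omega
    rwa [e] at this

theorem Bd_h3 {h : TAut (ZMod (2 * M))} (hh : h ∈ G M) (hM : 4 ≤ M) {n : ℕ}
    (hn : nu M h ≤ n) : Bd M h h n 3 := by
  have := Bd_h_all M hh hM n
  have e : max 3 (nu M h - n) = 3 := by omega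
  rwa [e] at this

theorem iter_mem {g h : TAut (ZMod (2 * M))} (hg : g ∈ G M) (hh : h ∈ G M) (k : ℕ) :
    (T h)^[k] g ∈ G M := by
  induction k with
  | zero => exact hg
  | succ k ih => rw [Function.iterate_succ_apply']; exact T_mem M ih hh

theorem iter3 (h g : TAut (ZMod (2 * M))) (n : ℕ) :
    (T h)^[3 * (n + 1)] g = T h (T h (T h ((T h)^[3 * n] g))) := by
  have : 3 * (n + 1) = 3 * n + 1 + 1 + 1 := by ring
  rw [this, Function.iterate_succ_apply', Function.iterate_succ_apply',
    Function.iterate_succ_apply']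

theorem iter_Stab {g h : TAut (ZMod (2 * M))} (hg : g ∈ G M) (hh : h ∈ G M) (n : ℕ) :
    Stab n ((T h)^[3 * n] g) := by
  induction n with
  | zero => exact Stab.zero _
  | succ n ih =>
    rw [iter3]
    exact stT (Stab_TT M (iter_mem M hg hh _) hh ih) h

theorem iter_comm {g h : TAut (ZMod (2 * M))} (hg : g ∈ G M) (hh : h ∈ G M) (n : ℕ)
    {v : List (ZMod (2 * M))} (hv : v.length = n + 1) :
    ∃ k₁ ∈ G M, ∃ k₂ ∈ G M, sec v ((T h)^[3 * (n + 1)] g) = cm k₁ k₂ := by
  rw [iter3]
  have hs := Stab_TT M (iter_mem M hg hh (3 * n)) hh (iter_Stab M hg hh n)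
  rw [sec_T hs h hv.le]
  have m := T_mem M (T_mem M (iter_mem M hg hh (3 * n)) hh) hh
  exact ⟨_, sec_mem M m v, _, (G M).mul_mem ((G M).mul_mem
      ((G M).inv_mem (sec_mem M hh v)) (sec_mem M m _)) (sec_mem M hh v), rfl⟩

theorem iter_Bd {g h : TAut (ZMod (2 * M))} (hg : g ∈ G M) (hh : h ∈ G M) (hM : 508 ≤ M) :
    ∃ n, Bd M h ((T h)^[3 * (n + 1)] g) (n + 1) 3 := by
  set n₀ := nu M h with hn₀
  set K := max 3 (nu M ((T h)^[3 * n₀] g)) with hK
  have key : ∀ m, Bd M h ((T h)^[3 * (n₀ + m)] g) (n₀ + m) (max 3 (K - m)) := by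
    intro m
    induction m with
    | zero =>
      have := Bd_init M (h := h) (iter_mem M hg hh (3 * n₀)) (by omega) n₀
      simpa [hK] using this
    | succ m ih =>
      have h3 := Bd_h3 M hh (by omega) (n := n₀ + m) (by omega)
      have := Bd_g M (iter_mem M hg hh _) hh hM (iter_Stab M hg hh (n₀ + m)) h3 ih
      rw [← iter3] at this
      have e : max 3 (max 3 (K - m) - 1) = max 3 (K - (m + 1)) := by omega
      rw [e] at this
      exact this
  refine ⟨n₀ + K, ?_⟩
  have := key (K + 1)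
  have e : max 3 (K - (K + 1)) = 3 := by omega
  rw [e] at this
  exact this

/-- a trivial section kills the orbit -/
theorem kill {g h : TAut (ZMod (2 * M))} {n : ℕ} (hs : Stab n g) (k : ℕ) :
    ∀ (v : List (ZMod (2 * M))), v.length = n → ∀ i ≤ k, sec (act (h ^ i) v) g = 1 →
      sec v ((T h)^[k] g) = 1 := by
  have hsk : ∀ k, Stab n ((T h)^[k] g) := by
    intro k
    induction k with
    | zero => exact hs
    | succ k ih => rw [Function.iterate_succ_apply']; exact stT ih h
  have cm1 : ∀ k' : TAut (ZMod (2 * M)), cm 1 k' = 1 := by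
    intro k'; simp [cm]
  have cm2 : ∀ k' : TAut (ZMod (2 * M)), cm k' 1 = 1 := by
    intro k'; simp [cm]
  induction k with
  | zero =>
    intro v _ i hi h1
    have : i = 0 := by omega
    subst this
    simpa using h1
  | succ k ih =>
    intro v hv i hi h1
    rw [Function.iterate_succ_apply', sec_T (hsk k) h hv.le]
    rcases Nat.lt_or_ge k i with hk | hk
    · have hik : i = k + 1 := by omega
      subst hik
      have h2 : sec (act (h ^ k) (act h v)) g = 1 := by
        rw [← act_mul, ← pow_succ]; exact h1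
      rw [ih (act h v) (by simpa using hv) k le_rfl h2]
      simp [cm2]
    · rw [ih v hv i hk h1, cm1]

/-- there is a common period on a level -/
theorem exists_period (h : TAut (ZMod (2 * M))) (n : ℕ) :
    ∃ l, 0 < l ∧ ∀ v : List (ZMod (2 * M)), v.length = n → act (h ^ l) v = v := by
  have hfin : Finite {v : List (ZMod (2 * M)) // v.length = n} :=
    (List.finite_length_eq _ n).to_subtype
  let σ : Equiv.Perm {v : List (ZMod (2 * M)) // v.length = n} :=
    { toFun := fun v => ⟨act h v.1, by simpa using v.2⟩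
      invFun := fun v => ⟨act h⁻¹ v.1, by simpa using v.2⟩
      left_inv := fun v => by simp
      right_inv := fun v => by simp }
  have hσ : ∀ k : ℕ, ∀ v, ((σ ^ k) v).1 = act (h ^ k) v.1 := by
    intro k
    induction k with
    | zero => intro v; simp
    | succ k ih =>
      intro v
      rw [pow_succ', pow_succ', act_mul, ← ih v]
      rfl
  have ho : IsOfFinOrder σ := isOfFinOrder_of_finite σ
  obtain ⟨l, hl, h1⟩ := isOfFinOrder_iff_pow_eq_one.1 ho
  refine ⟨l, hl, fun v hv => ?_⟩
  have := hσ l ⟨v, hv⟩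
  rw [h1] at this
  exact this.symm

/-- **the iterates die** -/
theorem dies {g h : TAut (ZMod (2 * M))} (hg : g ∈ G M) (hh : h ∈ G M) (hM : 508 ≤ M) :
    ∃ k, (T h)^[k] g = 1 := by
  obtain ⟨n, hb⟩ := iter_Bd M hg hh hM
  obtain ⟨l, hl, hper⟩ := exists_period M h (n + 1)
  set f := (T h)^[3 * (n + 1)] g with hf
  have hs : Stab (n + 1) f := iter_Stab M hg hh (n + 1)
  refine ⟨l + 3 * (n + 1), ?_⟩
  rw [Function.iterate_add_apply, ← hf]
  have hsl : Stab (n + 1) ((T h)^[l] f) := by
    clear_value f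
    clear hf hb
    induction l with
    | zero => exact hs
    | succ k ih =>
      rw [Function.iterate_succ_apply']
      have : ∀ k, Stab (n + 1) ((T h)^[k] f) := by
        intro k
        induction k with
        | zero => exact hs
        | succ k ih => rw [Function.iterate_succ_apply']; exact stT ih h
      exact stT (this k) h
  apply eq_one_of_sec hsl
  intro v hv
  have h1 := hb v hv l (hper v hv)
  have : ∃ i < l, sec (act (h ^ i) v) f = 1 := by
    by_contra hc
    push Not at hc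
    have h2 : 4 * l ≤ S M h f v l := by
      unfold S
      calc 4 * l = ∑ _i ∈ Finset.range l, 4 := by
            rw [Finset.sum_const, Finset.card_range, smul_eq_mul, mul_comm]
        _ ≤ _ := by
          apply Finset.sum_le_sum
          intro i hi
          by_contra h4
          push Not at h4
          obtain ⟨k₁, m₁, k₂, m₂, e⟩ := iter_comm M hg hh n (v := act (h ^ i) v)
            (by simpa using hv)
          rw [← hf] at e
          apply hc i (Finset.mem_range.1 hi)
          rw [e] at h4 ⊢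
          exact comm_long M m₁ m₂ (by omega)
    omega
  obtain ⟨i, hi, h2⟩ := this
  exact kill M hs l v hv i hi.le h2

end

end Pool.Agent.Q105.BrG
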