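import Pool.Agent.Q105.BrG.Tree

/-!
# The group `G` on the tree over `ZMod (2M)`

`a` is rooted, `x ↦ 1 - x`; `b, c, d` are directed along the ray `000...`.
-/

namespace Pool.Agent.Q105.BrG

open TAut

/-- letters -/
inductive Gn
  | e | a | b | c | d
  deriving DecidableEq, Fintype

section
variable (M : ℕ)

/-- action of the letters at the root -/
def top : Gn → Equiv.Perm (ZMod (2 * M))
  | .e => 1
  | .a => Equiv.subLeft 1
  | .b => Equiv.neg _
  | .c => Equiv.neg _
  | .d => 1

/-- sections of the letters -/
def sc : Gn → ZMod (2 * M) → Gn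
  | .e, _ => .e
  | .a, _ => .e
  | .b, x => if x = 0 then .b else if x = (M : ZMod (2 * M)) then .a else .e
  | .c, x => if x = 0 then .d else if x = (M : ZMod (2 * M)) then .a else .e
  | .d, x => if x = 0 then .c else .e

/-- portraits of the letters -/
def port : Gn → List (ZMod (2 * M)) → Equiv.Perm (ZMod (2 * M))
  | s, [] => top M s
  | s, x :: v => port (sc M s x) v

/-- the letter as an automorphism of the tree -/
def A (s : Gn) : TAut (ZMod (2 * M)) := ⟨port M s⟩

theorem A_p_nil (s : Gn) : (A M s).p [] = top M s := rfl
theorem sec_A (s : Gn) (x : ZMod (2 * M)) : sec [x] (A M s) = A M (sc M s x) := rfl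

theorem A_e : A M .e = 1 := by
  ext1
  funext v
  induction v with
  | nil => rfl
  | cons x v ih => exact ih

/-- equality from the root and the sections -/
theorem ext_sec {X : Type*} {g h : TAut X} (h0 : g.p [] = h.p [])
    (h1 : ∀ x, sec [x] g = sec [x] h) : g = h := by
  ext1
  funext v
  cases v with
  | nil => exact h0
  | cons x v =>
    have := congrArg (fun k : TAut X => k.p v) (h1 x)
    exact this

theorem A_aa : A M .a * A M .a = 1 := by
  apply ext_sec
  · ext x
    show (1 : ZMod (2 * M)) - (1 - x) = x
    ring
  · intro x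
    rw [sec_mul, act_cons]
    show A M .e * A M .e = _
    rw [A_e, one_mul, sec_one]

/-- the letters `e, b, c, d` -/
def IsB : Gn → Prop
  | .a => False
  | _ => True

instance : DecidablePred IsB := fun s => by cases s <;> unfold IsB <;> infer_instance

/-- Klein four group -/
def kl : Gn → Gn → Gn
  | .e, t => t
  | s, .e => s
  | .b, .b => .e
  | .c, .c => .e
  | .d, .d => .e
  | .b, .c => .d
  | .c, .b => .d
  | .b, .d => .c
  | .d, .b => .c
  | .c, .d => .b
  | .d, .c => .b
  | .a, _ => .e
  | _, .a => .e

theorem MM : (M : ZMod (2 * M)) + M = 0 := by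
  have : ((2 * M : ℕ) : ZMod (2 * M)) = 0 := ZMod.natCast_self _
  push_cast at this
  linear_combination this

theorem negM : -(M : ZMod (2 * M)) = M := by
  have := MM M
  linear_combination -this

theorem top_eq0 {t : Gn} (ht : IsB t) (x : ZMod (2 * M)) : top M t x = 0 ↔ x = 0 := by
  cases t <;> simp_all [top, IsB]

theorem top_eqM {t : Gn} (ht : IsB t) (x : ZMod (2 * M)) :
    top M t x = (M : ZMod (2 * M)) ↔ x = (M : ZMod (2 * M)) := by
  cases t <;> simp_all [top, IsB]
  all_goals
    constructor
    · intro h
      rw [← neg_neg x, h, negM]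
    · rintro rfl
      exact negM M

theorem sc_top {s t : Gn} (ht : IsB t) (x : ZMod (2 * M)) : sc M s (top M t x) = sc M s x := by
  cases s <;> simp [sc, top_eq0 M ht, top_eqM M ht]

theorem top_kl {s t : Gn} (hs : IsB s) (ht : IsB t) :
    top M s * top M t = top M (kl s t) := by
  cases s <;> cases t <;> simp_all [top, IsB, kl] <;> (ext x; simp)

variable [NeZero M]

theorem M_ne_zero : (M : ZMod (2 * M)) ≠ 0 := by
  intro h
  rw [ZMod.natCast_eq_zero_iff] at h
  have := Nat.le_of_dvd (Nat.pos_of_ne_zero (NeZero.ne M)) h
  have := NeZero.ne M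
  omega

theorem A_kl {s t : Gn} (hs : IsB s) (ht : IsB t) :
    A M s * A M t = A M (kl s t) := by
  ext1
  funext v
  induction v generalizing s t with
  | nil => exact top_kl M hs ht
  | cons x v ih =>
    have h1 : (A M s * A M t).p (x :: v) = (sec [x] (A M s * A M t)).p v := rfl
    have h2 : (A M (kl s t)).p (x :: v) = (sec [x] (A M (kl s t))).p v := rfl
    have h3 : act (A M t) [x] = [top M t x] := rfl
    rw [h1, h2, sec_mul, h3, sec_A, sec_A, sec_A, sc_top M ht]
    by_cases hx : x = 0
    · subst hx
      have e1 : IsB (sc M s 0) := by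
        cases s <;> simp_all [sc, IsB]
      have e2 : IsB (sc M t 0) := by
        cases t <;> simp_all [sc, IsB]
      rw [ih e1 e2]
      cases s <;> cases t <;> simp_all [sc, IsB, kl]
    · have he : ∀ u, (A M .e).p u = 1 := by intro u; rw [A_e]; rfl
      by_cases hM : x = (M : ZMod (2 * M))
      · have haa : (A M .a * A M .a).p v = 1 := by rw [A_aa]; rfl
        clear ih h1 h2 h3
        cases s <;> cases t <;>
          first
          | exact False.elim hs
          | exact False.elim ht
          | simp only [sc, kl, if_neg hx, if_pos hM, A_e, haa, he, one_mul, mul_one, one_p]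
      · clear ih h1 h2 h3
        cases s <;> cases t <;>
          first
          | exact False.elim hs
          | exact False.elim ht
          | simp only [sc, kl, if_neg hx, if_neg hM, A_e, he, one_mul, mul_one, one_p]

end

end Pool.Agent.Q105.BrG
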