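import Pool.Agent.Q105.BrG.Branch

/-!
# Rigid level stabilisers have finite index
-/

namespace Pool.Agent.Q105.BrG

open TAut

section
variable (M : ℕ) [NeZero M]

/-- elements which can be inserted below the word `v` -/
def D (v : List (ZMod (2 * M))) : Subgroup (TAut (ZMod (2 * M))) := G M ⊓ (G M).comap (ins v)

theorem mem_D {v : List (ZMod (2 * M))} {k : TAut (ZMod (2 * M))} :
    k ∈ D M v ↔ k ∈ G M ∧ ins v k ∈ G M := Iff.rfl

theorem ins_one (x : ZMod (2 * M)) (k : TAut (ZMod (2 * M))) : ins [x] k = io x k := rfl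

/-- `D [0]` is normalised by `G` -/
theorem D0_conj {c g : TAut (ZMod (2 * M))} (hc : c ∈ D M [0]) (hg : g ∈ G M) :
    g * c * g⁻¹ ∈ D M [0] := by
  obtain ⟨hc1, hc2⟩ := (mem_D M).1 hc
  refine (mem_D M).2 ⟨(G M).mul_mem ((G M).mul_mem hg hc1) ((G M).inv_mem hg), ?_⟩
  obtain ⟨h, hh, e1, e2⟩ := replic M hg
  have e3 : h.p [] 0 = 0 := (List.cons.inj e1).1
  have := conj_io h c 0 0 e3
  rw [e2] at this
  rw [ins_one, ← this]
  exact (G M).mul_mem ((G M).mul_mem hh hc2) ((G M).inv_mem hh)

theorem c_mem_D0 : A M .c ∈ D M [0] := by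
  refine (mem_D M).2 ⟨A_mem M _, ?_⟩
  rw [ins_one, ← Ad_eq]
  exact A_mem M _

theorem io_comm {X : Type*} [DecidableEq X] {x y : X} (hxy : x ≠ y) (k k' : TAut X) :
    io x k * io y k' = io y k' * io x k := by
  apply ext_sec
  · rfl
  · intro z
    rw [sec_mul, sec_mul, act_io, act_io, sec_io, sec_io]
    by_cases h : z = x
    · subst h
      rw [if_pos rfl, if_neg hxy, mul_one, one_mul]
    · rw [if_neg h, mul_one, one_mul]

theorem io_sq {X : Type*} [DecidableEq X] {x : X} {k : TAut X} (hk : k * k = 1) :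
    io x k * io x k = 1 := by
  rw [← io_mul, hk]
  exact (ioH x).map_one

/-- the relation `(ad)^4 = 1` -/
theorem ad4 : (A M .a * A M .d) ^ 4 = 1 := by
  have h1 : A M .a * A M .d * A M .a = io 1 (A M .c) := by
    have e : (A M .a).p [] 0 = 1 := by
      show (1 : ZMod (2 * M)) - 0 = 1
      ring
    have := conj_io (A M .a) (A M .c) 0 1 e
    rw [A_inv, sec_A] at this
    rw [Ad_eq, this]
    show io 1 (A M .e * A M .c * (A M .e)⁻¹) = _
    rw [A_e]
    simp
  have h2 := Ad_eq M
  have h01 : (1 : ZMod (2 * M)) ≠ 0 := by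
    have h3 : ((1 : ℕ) : ZMod (2 * M)) ≠ 0 := by
      rw [Ne, ZMod.natCast_eq_zero_iff]
      intro h
      have := Nat.le_of_dvd one_pos h
      have := NeZero.ne M
      omega
    simpa using h3
  have s1 := io_sq (x := (1 : ZMod (2 * M))) (A_sq M .c)
  have s0 := io_sq (x := (0 : ZMod (2 * M))) (A_sq M .c)
  have cc := io_comm h01 (A M .c) (A M .c)
  calc (A M .a * A M .d) ^ 4
      = (A M .a * A M .d * A M .a) * A M .d * ((A M .a * A M .d * A M .a) * A M .d) := by
        simp only [pow_succ, pow_zero, one_mul, mul_assoc]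
    _ = 1 := by
        rw [h1, h2]
        calc io 1 (A M .c) * io 0 (A M .c) * (io 1 (A M .c) * io 0 (A M .c))
            = io 1 (A M .c) * (io 0 (A M .c) * io 1 (A M .c)) * io 0 (A M .c) := by group
          _ = io 1 (A M .c) * (io 1 (A M .c) * io 0 (A M .c)) * io 0 (A M .c) := by rw [cc]
          _ = (io 1 (A M .c) * io 1 (A M .c)) * (io 0 (A M .c) * io 0 (A M .c)) := by group
          _ = 1 := by rw [s1, s0, mul_one]

/-- a group with a generating pair of dihedral type is finite -/
theorem dihedral_fin {Q : Type*} [Group Q] (α β : Q) (h1 : α * α = 1) (h2 : β * β = 1)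
    (h3 : (α * β) ^ 4 = 1) (q : Q) (hq : ∃ l : List Bool, q = (l.map (fun b => if b then α else β)).prod) :
    ∃ (i : Fin 4) (j : Fin 2), q = (α * β) ^ (i : ℕ) * α ^ (j : ℕ) := by
  set r := α * β with hr
  have hα : α⁻¹ = α := inv_eq_of_mul_eq_one_left h1
  have hβ : β⁻¹ = β := inv_eq_of_mul_eq_one_left h2
  have e1 : α * r = r ^ 3 * α := by
    have : r ^ 3 = r⁻¹ := by
      rw [eq_inv_iff_mul_eq_one, ← pow_succ]; exact h3
    rw [this, hr, mul_inv_rev, hα, hβ, mul_assoc, h1, mul_one, ← mul_assoc, h1, one_mul]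
  have e2 : ∀ i : ℕ, α * r ^ i = r ^ (3 * i) * α := by
    intro i
    induction i with
    | zero => simp
    | succ i ih =>
      rw [pow_succ, ← mul_assoc, ih, mul_assoc, e1, ← mul_assoc, ← pow_add]
      congr 2
  have e3 : β = α * r := by rw [hr, ← mul_assoc, h1, one_mul]
  have key : ∀ l : List Bool, ∃ i j : ℕ,
      (l.map (fun b => if b then α else β)).prod = r ^ i * α ^ j := by
    intro l
    induction l with
    | nil => exact ⟨0, 0, by simp⟩
    | cons b l ih =>
      obtain ⟨i, j, ih⟩ := ih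
      rw [List.map_cons, List.prod_cons, ih]
      cases b
      · refine ⟨3 * (i + 1), j + 1, ?_⟩
        simp only [Bool.false_eq_true, if_false]
        rw [e3, mul_assoc, ← mul_assoc r, ← pow_succ', ← mul_assoc, e2, mul_assoc, ← pow_succ']
      · refine ⟨3 * i, j + 1, ?_⟩
        simp only [if_true]
        rw [← mul_assoc, e2, mul_assoc, ← pow_succ']
  obtain ⟨l, rfl⟩ := hq
  obtain ⟨i, j, h⟩ := key l
  refine ⟨⟨i % 4, Nat.mod_lt _ (by norm_num)⟩, ⟨j % 2, Nat.mod_lt _ (by norm_num)⟩, ?_⟩
  rw [h]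
  have a2 : α ^ 2 = 1 := by rw [pow_two, h1]
  simp only
  rw [← pow_eq_pow_mod i h3, ← pow_eq_pow_mod j a2]

theorem D0_index : (D M [0]).relIndex (G M) ≠ 0 := by
  set C := (D M [0]).subgroupOf (G M) with hC
  have hn : C.Normal := by
    constructor
    intro c hc g
    rw [hC, Subgroup.mem_subgroupOf] at hc ⊢
    exact D0_conj M hc g.2
  show C.index ≠ 0
  let π := QuotientGroup.mk' C
  let a' : G M := ⟨A M .a, A_mem M _⟩
  let b' : G M := ⟨A M .b, A_mem M _⟩
  let c' : G M := ⟨A M .c, A_mem M _⟩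
  let d' : G M := ⟨A M .d, A_mem M _⟩
  have hc : π c' = 1 := by
    rw [QuotientGroup.mk'_apply, QuotientGroup.eq_one_iff]
    exact c_mem_D0 M
  have hd : π d' = π b' := by
    have : d' = b' * c' := Subtype.ext (A_kl M (s := .b) (t := .c) trivial trivial).symm
    rw [this, map_mul, hc, mul_one]
  have h1 : π a' * π a' = 1 := by
    rw [← map_mul]
    have : a' * a' = 1 := Subtype.ext (A_sq M .a)
    rw [this, map_one]
  have h2 : π b' * π b' = 1 := by
    rw [← map_mul]
    have : b' * b' = 1 := Subtype.ext (A_sq M .b)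
    rw [this, map_one]
  have h3 : (π a' * π b') ^ 4 = 1 := by
    rw [← hd, ← map_mul, ← map_pow]
    have : (a' * d') ^ 4 = 1 := Subtype.ext (ad4 M)
    rw [this, map_one]
  have hgen : ∀ l : List Gn, ∃ l' : List Bool,
      π ⟨ev M l, ev_mem M l⟩ = (l'.map (fun b => if b then π a' else π b')).prod := by
    intro l
    induction l with
    | nil =>
      refine ⟨[], ?_⟩
      have : (⟨ev M [], ev_mem M []⟩ : G M) = 1 := rfl
      rw [this, map_one]; rfl
    | cons s l ih =>
      obtain ⟨l', ih⟩ := ih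
      have hs : (⟨ev M (s :: l), ev_mem M (s :: l)⟩ : G M) =
          ⟨A M s, A_mem M s⟩ * ⟨ev M l, ev_mem M l⟩ := Subtype.ext (ev_cons M s l)
      rw [hs, map_mul, ih]
      cases s
      · refine ⟨l', ?_⟩
        have : (⟨A M .e, A_mem M .e⟩ : G M) = 1 := Subtype.ext (A_e M)
        rw [this, map_one, one_mul]
      · exact ⟨true :: l', by simp [a']⟩
      · exact ⟨false :: l', by simp [b']⟩
      · refine ⟨l', ?_⟩
        rw [hc, one_mul]
      · refine ⟨false :: l', ?_⟩
        rw [hd]; simp
  have hfin : Finite (G M ⧸ C) := by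
    have : Function.Surjective (fun p : Fin 4 × Fin 2 =>
        (π a' * π b') ^ (p.1 : ℕ) * π a' ^ (p.2 : ℕ)) := by
      intro q
      obtain ⟨⟨g, l, rfl⟩, rfl⟩ := QuotientGroup.mk'_surjective C q
      obtain ⟨i, j, h⟩ := dihedral_fin _ _ h1 h2 h3 _ (hgen l)
      exact ⟨(i, j), h.symm⟩
    exact Finite.of_surjective _ this
  exact (Subgroup.finiteIndex_of_finite_quotient (H := C)).index_ne_zero

/-- `D [0] ≤ D [x]` -/
theorem D0_le (x : ZMod (2 * M)) : D M [0] ≤ D M [x] := by
  intro k hk
  obtain ⟨h, hh, e1⟩ := trans1 M 0 x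
  have e2 : h.p [] 0 = x := (List.cons.inj e1).1
  have hs := sec_mem M hh [0]
  have hk' := D0_conj M hk ((G M).inv_mem hs)
  rw [inv_inv] at hk'
  have h3 := conj_io h ((sec [0] h)⁻¹ * k * sec [0] h) 0 x e2
  have e4 : sec [0] h * ((sec [0] h)⁻¹ * k * sec [0] h) * (sec [0] h)⁻¹ = k := by group
  rw [e4] at h3
  refine (mem_D M).2 ⟨((mem_D M).1 hk).1, ?_⟩
  rw [ins_one, ← h3]
  exact (G M).mul_mem ((G M).mul_mem hh ((mem_D M).1 hk').2) ((G M).inv_mem hh)

theorem D_index (v : List (ZMod (2 * M))) : (D M v).relIndex (G M) ≠ 0 := by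
  induction v with
  | nil =>
    have : D M [] = G M := by
      ext k; rw [mem_D]; exact and_self_iff
    rw [this, Subgroup.relIndex_self]; norm_num
  | cons x v ih =>
    have h1 : D M v ⊓ (D M [0]).comap (ins v) ≤ D M (x :: v) := by
      rintro k ⟨hk1, hk2⟩
      have := D0_le M x hk2
      exact (mem_D M).2 ⟨((mem_D M).1 hk1).1, ((mem_D M).1 this).2⟩
    have h2 : ((D M [0]).comap (ins v)).relIndex (D M v) ≠ 0 := by
      rw [Subgroup.relIndex_comap]
      intro h
      apply D0_index M
      apply Subgroup.relIndex_eq_zero_of_le_right _ h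
      rintro _ ⟨k, hk, rfl⟩
      exact ((mem_D M).1 hk).2
    have h3 : (D M v ⊓ (D M [0]).comap (ins v)).relIndex (D M v) ≠ 0 := by
      rw [Subgroup.inf_relIndex_left]; exact h2
    have h4 := Subgroup.relIndex_ne_zero_trans h3 ih
    intro h5
    exact h4 (Subgroup.relIndex_eq_zero_of_le_left h1 h5)

/-- stabiliser of a level in `G` -/
def StG (n : ℕ) : Subgroup (G M) where
  carrier := {g | Stab n g.1}
  mul_mem' := fun {a b} ha hb => stMul (g := a.1) (k := b.1) ha hb
  one_mem' := fun v _ => act_one v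
  inv_mem' := fun {a} ha => stInv (g := a.1) ha

theorem StG_index (n : ℕ) : (StG M n).FiniteIndex := by
  have hfin : Finite {v : List (ZMod (2 * M)) // v.length ≤ n} :=
    (List.finite_length_le _ n).to_subtype
  let φ : G M →* Equiv.Perm {v : List (ZMod (2 * M)) // v.length ≤ n} :=
    { toFun := fun g =>
        { toFun := fun v => ⟨act g.1 v.1, by simpa using v.2⟩
          invFun := fun v => ⟨act g.1⁻¹ v.1, by simpa using v.2⟩
          left_inv := fun v => by simp
          right_inv := fun v => by simp }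
      map_one' := by ext v; simp
      map_mul' := fun g h => by
        ext1 v
        apply Subtype.ext
        exact act_mul g.1 h.1 v.1 }
  have : φ.ker ≤ StG M n := by
    intro g hg v hv
    rw [MonoidHom.mem_ker] at hg
    have := congrArg (fun σ : Equiv.Perm {v : List (ZMod (2 * M)) // v.length ≤ n} =>
      (σ ⟨v, hv⟩).1) hg
    exact this
  exact Subgroup.finiteIndex_of_le this

/-- section homomorphism on a level stabiliser -/
def secH (n : ℕ) (v : List (ZMod (2 * M))) (hv : v.length = n) :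
    StG M n →* TAut (ZMod (2 * M)) where
  toFun g := sec v g.1.1
  map_one' := rfl
  map_mul' g h := by
    show sec v (g.1.1 * h.1.1) = _
    rw [sec_mul, h.2 v hv.le]

theorem secH_index (n : ℕ) (v : List (ZMod (2 * M))) (hv : v.length = n) :
    (((D M v).comap (secH M n v hv)).map (StG M n).subtype).FiniteIndex := by
  constructor
  rw [Subgroup.index_map_subtype]
  apply mul_ne_zero
  · rw [Subgroup.index_comap]
    intro h
    apply D_index M v
    apply Subgroup.relIndex_eq_zero_of_le_right _ h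
    rintro _ ⟨g, rfl⟩
    exact sec_mem M g.1.2 v
  · exact (StG_index M n).index_ne_zero

/-- rigid level stabiliser -/
def Rs (n : ℕ) : Subgroup (G M) := Subgroup.closure
  {g | ∃ v : List (ZMod (2 * M)), v.length = n ∧ ∀ u, ¬ v <+: u → act g.1 u = u}

theorem rist_aux (n : ℕ) (F : Finset (List (ZMod (2 * M)))) (hF : ∀ v ∈ F, v.length = n) :
    ∀ g : G M, Stab n g.1 → (∀ v : List (ZMod (2 * M)), v.length = n → v ∉ F → sec v g.1 = 1) →
      (∀ v ∈ F, ins v (sec v g.1) ∈ G M) → g ∈ Rs M n := by
  induction F using Finset.induction_on with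
  | empty =>
    intro g hs h1 _
    have : g.1 = 1 := eq_one_of_sec hs (fun v hv => h1 v hv (by simp))
    have : g = 1 := Subtype.ext this
    rw [this]; exact (Rs M n).one_mem
  | insert w F hw ih =>
    intro g hs h1 h2
    have hwn : w.length = n := hF w (Finset.mem_insert_self _ _)
    let k : G M := ⟨ins w (sec w g.1), h2 w (Finset.mem_insert_self _ _)⟩
    have hk : k ∈ Rs M n := Subgroup.subset_closure
      ⟨w, hwn, fun u hu => act_ins_out w _ u hu⟩
    have hks : Stab n k.1 := hwn ▸ stab_ins w (sec w g.1)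
    have hsec : ∀ v : List (ZMod (2 * M)), v.length = n →
        sec v (g * k⁻¹).1 = sec v g.1 * (sec v k.1)⁻¹ := by
      intro v hv
      show sec v (g.1 * k.1⁻¹) = _
      rw [sec_mul, sec_inv, stInv hks v hv.le]
    have hsk : ∀ v : List (ZMod (2 * M)), v.length = n →
        sec v k.1 = if v = w then sec w g.1 else 1 := by
      intro v hv
      exact sec_ins w v _ (hv.trans hwn.symm)
    have hg' : g * k⁻¹ ∈ Rs M n := by
      apply ih (fun v hv => hF v (Finset.mem_insert_of_mem hv))
      · exact stMul hs (stInv hks)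
      · intro v hv hvF
        rw [hsec v hv, hsk v hv]
        by_cases h : v = w
        · subst h; rw [if_pos rfl, mul_inv_cancel]
        · rw [if_neg h, h1 v hv, inv_one, mul_one]
          simp [h, hvF]
      · intro v hv
        have hvn := hF v (Finset.mem_insert_of_mem hv)
        have hne : v ≠ w := by rintro rfl; exact hw hv
        rw [hsec v hvn, hsk v hvn, if_neg hne, inv_one, mul_one]
        exact h2 v (Finset.mem_insert_of_mem hv)
    have := (Rs M n).mul_mem hg' hk
    rwa [inv_mul_cancel_right] at this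

theorem Rs_index (n : ℕ) : (Rs M n).FiniteIndex := by
  have hfin : Set.Finite {v : List (ZMod (2 * M)) | v.length = n} := List.finite_length_eq _ n
  have : Finite {v : List (ZMod (2 * M)) // v.length = n} := hfin.to_subtype
  let U : {v : List (ZMod (2 * M)) // v.length = n} → Subgroup (G M) := fun v =>
    ((D M v.1).comap (secH M n v.1 v.2)).map (StG M n).subtype
  have h1 : (⨅ v, U v).FiniteIndex := Subgroup.finiteIndex_iInf (fun v => secH_index M n v.1 v.2)
  have h2 : (⨅ v, U v) ≤ Rs M n := by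
    intro g hg
    rw [Subgroup.mem_iInf] at hg
    have hv0 : (List.replicate n (0 : ZMod (2 * M))).length = n := by simp
    have hs : Stab n g.1 := by
      obtain ⟨g', -, rfl⟩ := hg ⟨_, hv0⟩
      exact g'.2
    apply rist_aux M n hfin.toFinset (fun v hv => by simpa using hv) g hs
    · intro v hv hvn
      exact absurd (hfin.mem_toFinset.2 hv) hvn
    · intro v hv
      have hv' : v.length = n := by simpa using hv
      obtain ⟨g', hg', rfl⟩ := hg ⟨v, hv'⟩
      exact ((mem_D M).1 hg').2
  exact Subgroup.finiteIndex_of_le h2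

end

end Pool.Agent.Q105.BrG
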