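import Pool.Agent.Q105.BrG.Grp

/-!
# Words, the group `G`, word length and contraction
-/

namespace Pool.Agent.Q105.BrG

open TAut

section
variable (M : ℕ)

/-- evaluation of words -/
def ev (l : List Gn) : TAut (ZMod (2 * M)) := (l.map (A M)).prod

@[simp] theorem ev_nil : ev M [] = 1 := rfl
theorem ev_cons (s : Gn) (l : List Gn) : ev M (s :: l) = A M s * ev M l := by
  simp [ev]
theorem ev_append (l l' : List Gn) : ev M (l ++ l') = ev M l * ev M l' := by
  simp [ev]

variable [NeZero M]

theorem A_sq (s : Gn) : A M s * A M s = 1 := by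
  cases s
  · rw [A_e, one_mul]
  · exact A_aa M
  · rw [A_kl M (s := .b) (t := .b) trivial trivial]; exact A_e M
  · rw [A_kl M (s := .c) (t := .c) trivial trivial]; exact A_e M
  · rw [A_kl M (s := .d) (t := .d) trivial trivial]; exact A_e M

theorem A_inv (s : Gn) : (A M s)⁻¹ = A M s := by
  rw [inv_eq_iff_mul_eq_one]; exact A_sq M s

theorem ev_reverse (l : List Gn) : ev M l.reverse = (ev M l)⁻¹ := by
  induction l with
  | nil => simp
  | cons s l ih =>
    rw [List.reverse_cons, ev_append, ih, ev_cons M s l, mul_inv_rev, ev_cons, ev_nil, mul_one, A_inv]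

/-- the group -/
def G : Subgroup (TAut (ZMod (2 * M))) where
  carrier := {g | ∃ l, ev M l = g}
  mul_mem' := by
    rintro _ _ ⟨l, rfl⟩ ⟨l', rfl⟩
    exact ⟨l ++ l', ev_append M l l'⟩
  one_mem' := ⟨[], rfl⟩
  inv_mem' := by
    rintro _ ⟨l, rfl⟩
    exact ⟨l.reverse, ev_reverse M l⟩

theorem mem_G {g : TAut (ZMod (2 * M))} : g ∈ G M ↔ ∃ l, ev M l = g := Iff.rfl
theorem ev_mem (l : List Gn) : ev M l ∈ G M := ⟨l, rfl⟩
theorem A_mem (s : Gn) : A M s ∈ G M := ⟨[s], by rw [ev_cons, ev_nil, mul_one]⟩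

/-- word length -/
noncomputable def nu (g : TAut (ZMod (2 * M))) : ℕ :=
  sInf {n | ∃ l : List Gn, l.length = n ∧ ev M l = g}

omit [NeZero M] in
theorem nu_le (l : List Gn) : nu M (ev M l) ≤ l.length := Nat.sInf_le ⟨l, rfl, rfl⟩

theorem nu_ex {g : TAut (ZMod (2 * M))} (hg : g ∈ G M) :
    ∃ l : List Gn, l.length = nu M g ∧ ev M l = g := by
  have : {n | ∃ l : List Gn, l.length = n ∧ ev M l = g}.Nonempty := by
    obtain ⟨l, hl⟩ := hg
    exact ⟨l.length, l, rfl, hl⟩
  exact Nat.sInf_mem this

omit [NeZero M] in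
theorem nu_one : nu M 1 = 0 := Nat.le_zero.1 (nu_le M [])

theorem nu_mul {g h : TAut (ZMod (2 * M))} (hg : g ∈ G M) (hh : h ∈ G M) :
    nu M (g * h) ≤ nu M g + nu M h := by
  obtain ⟨l, hl, rfl⟩ := nu_ex M hg
  obtain ⟨l', hl', rfl⟩ := nu_ex M hh
  rw [← hl, ← hl', ← ev_append, ← List.length_append]
  exact nu_le M _

theorem nu_inv {g : TAut (ZMod (2 * M))} (hg : g ∈ G M) : nu M g⁻¹ ≤ nu M g := by
  obtain ⟨l, hl, rfl⟩ := nu_ex M hg
  rw [← hl, ← ev_reverse, ← List.length_reverse]
  exact nu_le M _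

theorem nu_A (s : Gn) : nu M (A M s) ≤ 1 := by
  have := nu_le M [s]
  rwa [ev_cons, ev_nil, mul_one] at this

/-- the distance to `0` in the root orbit -/
def q (x : ZMod (2 * M)) : ℕ := x.valMinAbs.natAbs

omit [NeZero M] in
theorem q_zero : q M 0 = 0 := by simp [q]

omit [NeZero M] in
theorem q_neg (x : ZMod (2 * M)) : q M (-x) = q M x := by
  unfold q
  exact ZMod.natAbs_valMinAbs_neg x

theorem q_M : q M (M : ZMod (2 * M)) = M := by
  unfold q
  rw [ZMod.valMinAbs_natCast_of_le_half]
  · simp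
  · omega

theorem q_le (x : ZMod (2 * M)) : q M x ≤ M := by
  have := ZMod.natAbs_valMinAbs_le x
  unfold q
  omega

theorem q_add (x y : ZMod (2 * M)) : q M (x + y) ≤ q M x + q M y := by
  unfold q
  exact (ZMod.natAbs_valMinAbs_add_le x y).trans (Int.natAbs_add_le _ _)

theorem q_one : q M 1 ≤ 1 := by
  have h1 : (1 : ℕ) ≤ 2 * M / 2 := by
    have := NeZero.ne M
    omega
  have := ZMod.valMinAbs_natCast_of_le_half (n := 2 * M) h1
  unfold q
  simp only [Nat.cast_one] at this
  rw [this]; simp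

/-- the three kinds of sections of letters -/
theorem sc_cases (s : Gn) (y : ZMod (2 * M)) :
    (sc M s y = .e ∧ q M (top M s y) ≤ q M y + 1 ∧ q M y ≤ q M (top M s y) + 1) ∨
    (y = 0 ∧ IsB (sc M s y) ∧ q M (top M s y) = 0) ∨
    (y = (M : ZMod (2 * M)) ∧ sc M s y = .a ∧ q M (top M s y) = M) := by
  cases s
  · left; exact ⟨rfl, by simp [top], by simp [top]⟩
  · left
    refine ⟨rfl, ?_, ?_⟩
    · have h := q_add M 1 (-y)
      rw [q_neg] at h
      have h1 := q_one M
      have : top M .a y = 1 + -y := by simp [top, sub_eq_add_neg]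
      rw [this]; omega
    · have h := q_add M 1 (-(top M .a y))
      rw [q_neg] at h
      have h1 := q_one M
      have : 1 + -(top M .a y) = y := by simp [top]
      rw [this] at h; omega
  · by_cases h0 : y = 0
    · subst h0
      right; left
      refine ⟨rfl, ?_, ?_⟩
      · simp [sc, IsB]
      · simp [top, q_zero]
    · by_cases hM : y = (M : ZMod (2 * M))
      · right; right
        refine ⟨hM, ?_, ?_⟩
        · simp only [sc, if_neg h0, if_pos hM]
        · show q M (-y) = M
          rw [q_neg, hM, q_M]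
      · left
        refine ⟨by simp only [sc, if_neg h0, if_neg hM], ?_, ?_⟩
        · show q M (-y) ≤ _
          rw [q_neg]; omega
        · show _ ≤ q M (-y) + 1
          rw [q_neg]; omega
  · by_cases h0 : y = 0
    · subst h0
      right; left
      refine ⟨rfl, ?_, ?_⟩
      · simp [sc, IsB]
      · simp [top, q_zero]
    · by_cases hM : y = (M : ZMod (2 * M))
      · right; right
        refine ⟨hM, ?_, ?_⟩
        · simp only [sc, if_neg h0, if_pos hM]
        · show q M (-y) = M
          rw [q_neg, hM, q_M]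
      · left
        refine ⟨by simp only [sc, if_neg h0, if_neg hM], ?_, ?_⟩
        · show q M (-y) ≤ _
          rw [q_neg]; omega
        · show _ ≤ q M (-y) + 1
          rw [q_neg]; omega
  · by_cases h0 : y = 0
    · subst h0
      right; left
      refine ⟨rfl, ?_, ?_⟩
      · simp [sc, IsB]
      · simp [top, q_zero]
    · left
      refine ⟨by simp only [sc, if_neg h0], ?_, ?_⟩
      · simp [top]
      · simp [top]

/-- sections of words: membership and the two potentials -/
theorem con (l : List Gn) (x : ZMod (2 * M)) :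
    sec [x] (ev M l) ∈ G M ∧
    (∃ β, IsB β ∧ M * nu M (A M β * sec [x] (ev M l)) ≤ l.length + q M ((ev M l).p [] x)) ∧
    (∃ α, (α = Gn.e ∨ α = Gn.a) ∧
      M * nu M (A M α * sec [x] (ev M l)) ≤ l.length + (M - q M ((ev M l).p [] x))) := by
  induction l with
  | nil =>
    refine ⟨?_, ⟨.e, trivial, ?_⟩, ⟨.e, Or.inl rfl, ?_⟩⟩
    · exact (G M).one_mem
    · simp [A_e, nu_one]
    · simp [A_e, nu_one]
  | cons s l ih =>
    obtain ⟨hu, ⟨β, hβ, h1⟩, ⟨α, hα, h2⟩⟩ := ih
    set y := (ev M l).p [] x with hy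
    set u := sec [x] (ev M l) with hudef
    have hsec : sec [x] (ev M (s :: l)) = A M (sc M s y) * u := by
      rw [ev_cons, sec_mul, act_cons]
      rfl
    have hp : (ev M (s :: l)).p [] x = top M s y := by
      rw [ev_cons, mul_p]; rfl
    have hqy := q_le M y
    have hlen : (s :: l).length = l.length + 1 := rfl
    rw [hsec, hp, hlen]
    refine ⟨(G M).mul_mem (A_mem M _) hu, ?_⟩
    rcases sc_cases M s y with ⟨h, h3, h4⟩ | ⟨h, h3, h4⟩ | ⟨h, h3, h4⟩
    · rw [h, A_e, one_mul]
      exact ⟨⟨β, hβ, by omega⟩, ⟨α, hα, by omega⟩⟩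
    · have hk : ∀ β', IsB β' → IsB (kl β (sc M s y)) := by
        intro _ _
        revert hβ h3
        cases β <;> cases (sc M s y) <;> simp [IsB, kl]
      have hk' := hk β hβ
      refine ⟨⟨kl β (sc M s y), hk', ?_⟩, ⟨.e, Or.inl rfl, ?_⟩⟩
      · rw [← A_kl M hβ h3, mul_assoc (A M β), ← mul_assoc (A M (sc M s y)) _ u, A_sq, one_mul, h4]
        rw [h, q_zero] at h1
        omega
      · rw [A_e, one_mul, h4]
        have e1 : A M (sc M s y) * u = A M (kl (sc M s y) β) * (A M β * u) := by
          rw [← A_kl M h3 hβ, mul_assoc, ← mul_assoc (A M β) (A M β), A_sq, one_mul]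
        have e2 := nu_mul M (A_mem M (kl (sc M s y) β)) ((G M).mul_mem (A_mem M β) hu)
        rw [← e1] at e2
        have e3 := nu_A M (kl (sc M s y) β)
        rw [h, q_zero] at h1
        rw [h] at e1 e2 ⊢
        have e4 : nu M (A M (sc M s 0) * u) ≤ 1 + nu M (A M β * u) := by
          rw [h] at e3
          omega
        have := Nat.mul_le_mul_left M e4
        rw [mul_add, mul_one] at this
        omega
    · rw [h3, h4]
      rw [h, q_M] at h1 h2
      refine ⟨⟨.e, trivial, ?_⟩, ?_⟩
      · rw [A_e, one_mul]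
        have e4 : nu M (A M .a * u) ≤ 1 + nu M (A M α * u) := by
          rcases hα with rfl | rfl
          · rw [A_e, one_mul]
            have e2 := nu_mul M (A_mem M .a) hu
            have e3 := nu_A M .a
            omega
          · omega
        have := Nat.mul_le_mul_left M e4
        rw [mul_add, mul_one] at this
        omega
      · rcases hα with rfl | rfl
        · refine ⟨.a, Or.inr rfl, ?_⟩
          rw [A_e, one_mul] at h2
          rw [← mul_assoc, A_aa, one_mul]
          omega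
        · refine ⟨.e, Or.inl rfl, ?_⟩
          rw [A_e, one_mul]
          omega

theorem sec_mem_one {g : TAut (ZMod (2 * M))} (hg : g ∈ G M) (x : ZMod (2 * M)) :
    sec [x] g ∈ G M := by
  obtain ⟨l, rfl⟩ := hg
  exact (con M l x).1

/-- the contraction of the word length -/
theorem nu_sec {g : TAut (ZMod (2 * M))} (hg : g ∈ G M) (x : ZMod (2 * M)) :
    M * nu M (sec [x] g) ≤ nu M g + 2 * M := by
  obtain ⟨l, hl, rfl⟩ := nu_ex M hg
  obtain ⟨hu, ⟨β, hβ, h1⟩, -⟩ := con M l x
  have e1 : sec [x] (ev M l) = A M β * (A M β * sec [x] (ev M l)) := by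
    rw [← mul_assoc, A_sq, one_mul]
  have e2 := nu_mul M (A_mem M β) ((G M).mul_mem (A_mem M β) hu)
  rw [← e1] at e2
  have e3 := nu_A M β
  have e4 : nu M (sec [x] (ev M l)) ≤ 1 + nu M (A M β * sec [x] (ev M l)) := by omega
  have := Nat.mul_le_mul_left M e4
  have hq := q_le M ((ev M l).p [] x)
  rw [mul_add, mul_one] at this
  omega

theorem sec_mem {g : TAut (ZMod (2 * M))} (hg : g ∈ G M) (v : List (ZMod (2 * M))) :
    sec v g ∈ G M := by
  induction v generalizing g with
  | nil => exact hg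
  | cons x v ih => rw [sec_cons]; exact ih (sec_mem_one M hg x)

end

end Pool.Agent.Q105.BrG
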