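import Mathlib

/-!
# Automorphisms of the regular rooted tree of words, by portraits
-/

namespace Pool.Agent.Q105.BrG

/-- an automorphism of the rooted tree of words over `X`, given by its portrait:
a permutation of `X` at every word -/
@[ext]
structure TAut (X : Type*) where
  p : List X → Equiv.Perm X

variable {X : Type*}

namespace TAut

/-- section at a word -/
def sec (v : List X) (g : TAut X) : TAut X := ⟨fun u => g.p (v ++ u)⟩

/-- the action on words -/
def act : TAut X → List X → List X
  | _, [] => []
  | g, x :: u => g.p [] x :: act ⟨fun w => g.p (x :: w)⟩ u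

/-- the inverse action on words -/
def actInv : TAut X → List X → List X
  | _, [] => []
  | g, x :: u => (g.p [])⁻¹ x :: actInv ⟨fun w => g.p ((g.p [])⁻¹ x :: w)⟩ u

@[simp] theorem act_nil (g : TAut X) : act g [] = [] := rfl
theorem act_cons (g : TAut X) (x : X) (u : List X) :
    act g (x :: u) = g.p [] x :: act (sec [x] g) u := rfl

theorem sec_p (v : List X) (g : TAut X) (u : List X) : (sec v g).p u = g.p (v ++ u) := rfl

@[simp] theorem sec_nil (g : TAut X) : sec [] g = g := rfl

theorem sec_append (v w : List X) (g : TAut X) : sec (v ++ w) g = sec w (sec v g) := by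
  ext u; simp [sec, List.append_assoc]

theorem sec_cons (x : X) (w : List X) (g : TAut X) : sec (x :: w) g = sec w (sec [x] g) := by
  rw [← sec_append]; rfl

@[simp] theorem length_act (g : TAut X) (u : List X) : (act g u).length = u.length := by
  induction u generalizing g with
  | nil => rfl
  | cons x u ih => simp [act_cons, ih]

theorem act_append (g : TAut X) (v u : List X) :
    act g (v ++ u) = act g v ++ act (sec v g) u := by
  induction v generalizing g with
  | nil => rfl
  | cons x v ih => rw [List.cons_append, act_cons, ih, act_cons, List.cons_append, ← sec_cons]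

instance : One (TAut X) := ⟨⟨fun _ => 1⟩⟩
instance : Mul (TAut X) := ⟨fun g h => ⟨fun v => g.p (act h v) * h.p v⟩⟩
instance : Inv (TAut X) := ⟨fun g => ⟨fun v => (g.p (actInv g v))⁻¹⟩⟩

@[simp] theorem one_p (v : List X) : (1 : TAut X).p v = 1 := rfl
theorem mul_p (g h : TAut X) (v : List X) : (g * h).p v = g.p (act h v) * h.p v := rfl
theorem inv_p (g : TAut X) (v : List X) : (g⁻¹).p v = (g.p (actInv g v))⁻¹ := rfl

@[simp] theorem sec_one (v : List X) : sec v (1 : TAut X) = 1 := rfl

@[simp] theorem act_one (u : List X) : act (1 : TAut X) u = u := by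
  induction u with
  | nil => rfl
  | cons x u ih => rw [act_cons, sec_one, ih]; rfl

theorem sec_mul (v : List X) (g h : TAut X) :
    sec v (g * h) = sec (act h v) g * sec v h := by
  ext1
  funext u
  rw [sec_p, mul_p, mul_p, sec_p, sec_p, act_append]

theorem act_mul (g h : TAut X) (u : List X) : act (g * h) u = act g (act h u) := by
  induction u generalizing g h with
  | nil => rfl
  | cons x u ih =>
    rw [act_cons, act_cons, act_cons, sec_mul, ih]
    rfl

theorem actInv_act (g : TAut X) (u : List X) : actInv g (act g u) = u := by
  induction u generalizing g with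
  | nil => rfl
  | cons x u ih =>
    rw [act_cons]
    show (g.p [])⁻¹ (g.p [] x) :: actInv (sec [(g.p [])⁻¹ (g.p [] x)] g) _ = _
    have : (g.p [])⁻¹ (g.p [] x) = x := by simp
    rw [this, ih]

instance : Group (TAut X) where
  mul_assoc a b c := by
    ext1
    funext v
    rw [mul_p, mul_p, mul_p, mul_p, act_mul, mul_assoc]
  one_mul a := by
    ext1
    funext v
    rw [mul_p, one_p, one_mul]
  mul_one a := by
    ext1
    funext v
    rw [mul_p, one_p, act_one, mul_one]
  inv_mul_cancel a := by
    ext1
    funext v
    rw [mul_p, inv_p, actInv_act, inv_mul_cancel]; rfl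

@[simp] theorem act_inv_act (g : TAut X) (u : List X) : act g⁻¹ (act g u) = u := by
  rw [← act_mul, inv_mul_cancel, act_one]

@[simp] theorem act_act_inv (g : TAut X) (u : List X) : act g (act g⁻¹ u) = u := by
  rw [← act_mul, mul_inv_cancel, act_one]

instance : MulAction (TAut X) (List X) where
  smul g u := act g u
  one_smul := act_one
  mul_smul := act_mul

theorem smul_def (g : TAut X) (u : List X) : g • u = act g u := rfl

theorem sec_inv (v : List X) (g : TAut X) : sec v g⁻¹ = (sec (act g⁻¹ v) g)⁻¹ := by
  rw [eq_inv_iff_mul_eq_one]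
  have h := sec_mul (act g⁻¹ v) g⁻¹ g
  rw [act_act_inv, inv_mul_cancel, sec_one] at h
  exact h.symm

/-- the action is faithful -/
theorem ext_act {g h : TAut X} (H : ∀ u, act g u = act h u) : g = h := by
  ext1
  funext v
  ext x
  have h1 := H (v ++ [x])
  have h2 := H v
  rw [act_append, act_append, h2] at h1
  have h3 := List.append_cancel_left h1
  rw [act_cons, act_cons] at h3
  have h4 := (List.cons.inj h3).1
  simpa [sec_p] using h4

theorem eq_one_of_act {g : TAut X} (H : ∀ u, act g u = u) : g = 1 :=
  ext_act (fun u => by rw [H, act_one])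

/-- stabiliser of the level `n` -/
def Stab (n : ℕ) (g : TAut X) : Prop := ∀ v : List X, v.length ≤ n → act g v = v

theorem Stab.zero (g : TAut X) : Stab 0 g := by
  intro v hv
  have : v = [] := List.length_eq_zero_iff.1 (Nat.le_zero.1 hv)
  subst this; rfl

theorem eq_one_of_sec {g : TAut X} {n : ℕ} (h1 : Stab n g)
    (h2 : ∀ v : List X, v.length = n → sec v g = 1) : g = 1 := by
  apply eq_one_of_act
  intro u
  rcases le_total u.length n with h | h
  · exact h1 u h
  · conv_lhs => rw [← List.take_append_drop n u]
    have hl : (u.take n).length = n := by simp [h]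
    rw [act_append, h1 _ hl.le, h2 _ hl, act_one, List.take_append_drop]

end TAut

end Pool.Agent.Q105.BrG
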